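import Pool.Agent.helper60.ZrD.Defs

set_option autoImplicit false

/-!
# ZrD, module B1: roots of monic polynomials depend continuously on the coefficients

`pev a x` is the evaluation of the monic polynomial `p = X ^ N + ∑ C (a i x) * X ^ i` of degree `N`, which splits over `ℂ`: `pev a x t = ∏ (t - r)` over the multiset `p.roots` of `N` roots (`IsAlgClosed.splits`, `Polynomial.eval_eq_prod_roots_sub_of_monic_of_splits_id` or similar).
`rts_fin`, `rts_card`: `rts a x` = the roots. `near_root`: `pev a x τ → pev a q τ = 0` as `x → q`, and `‖pev a x τ‖ = ∏ ‖τ - r‖ ≥ (min ‖τ - r‖) ^ N`, so some root is within `ε` when `‖pev a x τ‖ < ε ^ N` (if `N = 0` there are no roots `τ`: `pev a q τ = 1`).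
`far_root`: for `x` near `q` all roots of `pev a x` have norm `≤ R` (Cauchy bound: `R = 1 + ∑ ‖a i x‖`), and `‖pev a q t - pev a x t‖ ≤ ∑ ‖a i q - a i x‖ * R ^ i` is small uniformly for `‖t‖ ≤ R`; so for a root `t` of `pev a x`: `∏ ‖t - τ‖ = ‖pev a q t‖ < ε ^ N` and some root `τ` of `pev a q` is within `ε` of `t`.
`dist_root`: `pev a x` has `N` different roots: they are `β i`, `pev a x t = ∏ (t - β i)`.
-/

noncomputable section

namespace ZrD

open Filter Topology Set

variable {E : Type*} [NormedAddCommGroup E] [NormedSpace ℂ E] {N : ℕ} {a : Fin N → E → ℂ}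

/-- the factorization -/
theorem pev_prod (a : Fin N → E → ℂ) (x : E) : ∃ r : Fin N → ℂ, ∀ t, pev a x t = ∏ i, (t - r i) := by
  classical
  set p : Polynomial ℂ := Polynomial.X ^ N + ∑ i : Fin N, Polynomial.C (a i x) * Polynomial.X ^ (i : ℕ) with hp
  have hdeg : (∑ i : Fin N, Polynomial.C (a i x) * Polynomial.X ^ (i : ℕ)).degree < (N : WithBot ℕ) :=
    Polynomial.degree_sum_fin_lt (fun i : Fin N => a i x)
  have hm : p.Monic := Polynomial.monic_X_pow_add hdeg
  have hnat : p.natDegree = N := by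
    have h1 : p.degree = (N : WithBot ℕ) := by
      rw [hp, Polynomial.degree_add_eq_left_of_degree_lt (by rwa [Polynomial.degree_X_pow])]
      exact Polynomial.degree_X_pow N
    exact Polynomial.natDegree_eq_of_degree_eq_some h1
  have hcard : p.roots.card = N := by
    rw [IsAlgClosed.card_roots_eq_natDegree, hnat]
  have hsplit : p.Splits := IsAlgClosed.splits p
  have heval : ∀ t, p.eval t = pev a x t := by
    intro t
    rw [hp]
    unfold pev
    simp [Polynomial.eval_finsetSum]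
  obtain ⟨l, hl⟩ : ∃ l : List ℂ, (l : Multiset ℂ) = p.roots := Quotient.exists_rep p.roots
  have hlen : l.length = N := by
    rw [← hcard, ← hl, Multiset.coe_card]
  subst hlen
  refine ⟨l.get, fun t => ?_⟩
  rw [← heval, hsplit.eval_eq_prod_roots_of_monic hm, ← hl, Multiset.map_coe, Multiset.prod_coe]
  have h2 : (l.map fun z => t - z) = List.ofFn (fun i => t - l.get i) := by
    conv_lhs => rw [← List.ofFn_get l, List.map_ofFn]
    rfl
  rw [h2, List.prod_ofFn]

theorem B1_range (a : Fin N → E → ℂ) (x : E) : ∃ r : Fin N → ℂ, (∀ t, pev a x t = ∏ i, (t - r i)) ∧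
    rts a x = Set.range r := by
  obtain ⟨r, hr⟩ := pev_prod a x
  refine ⟨r, hr, ?_⟩
  ext t
  change pev a x t = 0 ↔ _
  rw [hr t, Finset.prod_eq_zero_iff, Set.mem_range]
  constructor
  · rintro ⟨i, -, hi⟩
    exact ⟨i, (sub_eq_zero.1 hi).symm⟩
  · rintro ⟨i, hi⟩
    exact ⟨i, Finset.mem_univ i, by rw [hi, sub_self]⟩

theorem rts_fin (a : Fin N → E → ℂ) (x : E) : (rts a x).Finite := by
  obtain ⟨r, -, hr⟩ := B1_range a x
  rw [hr]
  exact Set.finite_range r

theorem rts_card (a : Fin N → E → ℂ) (x : E) : (rts a x).ncard ≤ N := by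
  obtain ⟨r, -, hr⟩ := B1_range a x
  rw [hr, ← Set.image_univ]
  refine (Set.ncard_image_le Set.finite_univ).trans ?_
  rw [Set.ncard_univ, Nat.card_eq_fintype_card, Fintype.card_fin]

/-- if the value at `t` is small, then there is a root near `t` -/
theorem B1_close (a : Fin N → E → ℂ) (x : E) (t : ℂ) {ε : ℝ} (hε : 0 < ε) (h : ‖pev a x t‖ < ε ^ N) :
    ∃ τ ∈ rts a x, ‖t - τ‖ < ε := by
  obtain ⟨r, hr, hrange⟩ := B1_range a x
  by_contra hcon
  push Not at hcon
  have h1 : ∀ i, ε ≤ ‖t - r i‖ := fun i => hcon (r i) (by rw [hrange]; exact ⟨i, rfl⟩)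
  have h2 : ε ^ N ≤ ‖pev a x t‖ := by
    rw [hr t, norm_prod]
    have h3 : ∏ _i : Fin N, ε ≤ ∏ i : Fin N, ‖t - r i‖ :=
      Finset.prod_le_prod (fun i _ => hε.le) (fun i _ => h1 i)
    simpa using h3
  exact absurd h (not_lt.2 h2)

theorem near_root {q : E} (hc : ∀ i, ContinuousAt (a i) q) {τ : ℂ} (hτ : τ ∈ rts a q) {ε : ℝ} (hε : 0 < ε) :
    ∀ᶠ x in 𝓝 q, ∃ t ∈ rts a x, ‖t - τ‖ < ε := by
  have h1 : ContinuousAt (fun x => pev a x τ) q := by
    unfold pev
    refine continuousAt_const.add ?_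
    refine tendsto_finsetSum _ fun i _ => ?_
    exact (hc i).mul continuousAt_const
  have h2 : ContinuousAt (fun x => ‖pev a x τ‖) q := h1.norm
  have h3 : ‖pev a q τ‖ < ε ^ N := by
    have h4 : pev a q τ = 0 := hτ
    rw [h4, norm_zero]
    positivity
  filter_upwards [h2.eventually (gt_mem_nhds h3)] with x hx
  obtain ⟨t, ht, hlt⟩ := B1_close a x τ hε hx
  exact ⟨t, ht, by rwa [norm_sub_rev]⟩

/-- the Cauchy bound for the roots -/
theorem B1_cauchy (a : Fin N → E → ℂ) (x : E) {t : ℂ} (ht : t ∈ rts a x) : ‖t‖ ≤ 1 + ∑ i, ‖a i x‖ := by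
  have hsum : 0 ≤ ∑ i, ‖a i x‖ := Finset.sum_nonneg fun i _ => norm_nonneg _
  rcases le_or_gt ‖t‖ 1 with h1 | h1
  · linarith
  have ht' : t ^ N + ∑ i : Fin N, a i x * t ^ (i : ℕ) = 0 := ht
  rcases Nat.eq_zero_or_pos N with h0 | h0
  · subst h0
    simp at ht'
  have h2 : t ^ N = - ∑ i : Fin N, a i x * t ^ (i : ℕ) := eq_neg_of_add_eq_zero_left ht'
  have h3 : ‖t‖ ^ N ≤ (∑ i, ‖a i x‖) * ‖t‖ ^ (N - 1) := by
    rw [← norm_pow, h2, norm_neg, Finset.sum_mul]
    refine (norm_sum_le _ _).trans (Finset.sum_le_sum fun i _ => ?_)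
    rw [norm_mul, norm_pow]
    refine mul_le_mul_of_nonneg_left ?_ (norm_nonneg _)
    exact pow_le_pow_right₀ h1.le (by have := i.2; omega)
  have h4 : ‖t‖ ^ N = ‖t‖ * ‖t‖ ^ (N - 1) := by
    rw [← pow_succ']
    congr 1
    omega
  rw [h4] at h3
  have h5 : 0 < ‖t‖ ^ (N - 1) := by positivity
  have h6 := le_of_mul_le_mul_right h3 h5
  linarith

theorem far_root {q : E} (hc : ∀ i, ContinuousAt (a i) q) {ε : ℝ} (hε : 0 < ε) :
    ∀ᶠ x in 𝓝 q, ∀ t ∈ rts a x, ∃ τ ∈ rts a q, ‖t - τ‖ < ε := by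
  have hsum0 : 0 ≤ ∑ i, ‖a i q‖ := Finset.sum_nonneg fun i _ => norm_nonneg _
  set R : ℝ := 2 + ∑ i, ‖a i q‖ with hR
  have hR1 : 1 ≤ R := by linarith
  have h1 : ContinuousAt (fun x => ∑ i, ‖a i x‖) q := tendsto_finsetSum _ fun i _ => (hc i).norm
  have h2 : ∀ᶠ x in 𝓝 q, ∑ i, ‖a i x‖ < 1 + ∑ i, ‖a i q‖ := by
    refine h1.eventually (gt_mem_nhds ?_)
    linarith
  have h3 : ContinuousAt (fun x => ∑ i, ‖a i q - a i x‖ * R ^ (i : ℕ)) q :=
    tendsto_finsetSum _ fun i _ => ((continuousAt_const.sub (hc i)).norm.mul continuousAt_const)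
  have h4 : ∀ᶠ x in 𝓝 q, ∑ i, ‖a i q - a i x‖ * R ^ (i : ℕ) < ε ^ N := by
    refine h3.eventually (gt_mem_nhds ?_)
    simp only [sub_self, norm_zero, zero_mul, Finset.sum_const_zero]
    positivity
  filter_upwards [h2, h4] with x hx1 hx2 t ht
  have htR : ‖t‖ ≤ R := by
    have h5 := B1_cauchy a x ht
    linarith
  refine B1_close a q t hε (lt_of_le_of_lt ?_ hx2)
  have ht' : t ^ N + ∑ i : Fin N, a i x * t ^ (i : ℕ) = 0 := ht
  have h6 : pev a q t = ∑ i : Fin N, (a i q - a i x) * t ^ (i : ℕ) := by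
    have h7 : pev a q t = pev a q t - (t ^ N + ∑ i : Fin N, a i x * t ^ (i : ℕ)) := by rw [ht', sub_zero]
    rw [h7]
    unfold pev
    rw [add_sub_add_left_eq_sub, ← Finset.sum_sub_distrib]
    exact Finset.sum_congr rfl fun i _ => by ring
  rw [h6]
  refine (norm_sum_le _ _).trans (Finset.sum_le_sum fun i _ => ?_)
  rw [norm_mul, norm_pow]
  refine mul_le_mul_of_nonneg_left ?_ (norm_nonneg _)
  exact pow_le_pow_left₀ (norm_nonneg _) htR _

end ZrD
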