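import Pool.Agent.helper60.ZrD.B1

set_option autoImplicit false

/-!
# ZrD, module B2: matching of roots

`exists_match`: for `x ∈ Good a` choose a bijection `β x` of `Fin N` with `rts a x`. For `x ∈ Good a` let `8 * sep x` be a lower bound of the
distances of two roots of `x`. For `y ∈ Good a` near `x` every `β x i` has a root of `y` within `sep x`, these `N` roots are different, so this
defines a permutation `mt x y`.
-/

noncomputable section

namespace ZrD

open Filter Topology Set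

variable {E : Type*} [NormedAddCommGroup E] [NormedSpace ℂ E] {N : ℕ} {a : Fin N → E → ℂ}

/-- an enumeration of the roots of a good point -/
theorem B2_enum (a : Fin N → E → ℂ) {x : E} (hx : x ∈ Good a) :
    ∃ b : Fin N → ℂ, Function.Injective b ∧ ∀ t, t ∈ rts a x ↔ ∃ i, b i = t := by
  obtain ⟨r, -, hr⟩ := B1_range a x
  refine ⟨r, ?_, fun t => ?_⟩
  · have h1 : (Set.range r).ncard = N := by rw [← hr]; exact hx.2
    have h2 : (r '' Set.univ).ncard = (Set.univ : Set (Fin N)).ncard := by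
      rw [Set.image_univ, h1, Set.ncard_univ, Nat.card_eq_fintype_card, Fintype.card_fin]
    have h3 : Set.InjOn r Set.univ := Set.injOn_of_ncard_image_eq h2 Set.finite_univ
    exact fun i j hij => h3 (Set.mem_univ i) (Set.mem_univ j) hij
  · rw [hr]
    exact Set.mem_range

/-- separation of finitely many different numbers -/
theorem B2_sep {b : Fin N → ℂ} (hb : Function.Injective b) : ∃ s : ℝ, 0 < s ∧ ∀ i j, i ≠ j → 8 * s ≤ ‖b i - b j‖ := by
  classical
  have h1 : ∀ i j : Fin N, ∃ s : ℝ, 0 < s ∧ (i ≠ j → 8 * s ≤ ‖b i - b j‖) := by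
    intro i j
    by_cases hij : i = j
    · exact ⟨1, one_pos, fun h => absurd hij h⟩
    · have h2 : 0 < ‖b i - b j‖ := norm_pos_iff.2 (sub_ne_zero.2 fun h => hij (hb h))
      exact ⟨‖b i - b j‖ / 8, by positivity, fun _ => by linarith⟩
  choose s hs0 hs using h1
  rcases Nat.eq_zero_or_pos N with h0 | h0
  · subst h0
    exact ⟨1, one_pos, fun i => i.elim0⟩
  have hne : (Finset.univ : Finset (Fin N × Fin N)).Nonempty := ⟨(⟨0, h0⟩, ⟨0, h0⟩), Finset.mem_univ _⟩
  obtain ⟨p, -, hp⟩ := Finset.exists_min_image Finset.univ (fun p : Fin N × Fin N => s p.1 p.2) hne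
  refine ⟨s p.1 p.2, hs0 _ _, fun i j hij => ?_⟩
  have h3 := hp (i, j) (Finset.mem_univ _)
  have h4 := hs i j hij
  simp only at h3
  linarith

/-- near a good point there is, for every `ε`, a permutation which matches the roots within `ε` -/
theorem B2_perm {β : E → Fin N → ℂ} (hinj : ∀ x ∈ Good a, Function.Injective (β x))
    (hroot : ∀ x ∈ Good a, ∀ t, t ∈ rts a x ↔ ∃ i, β x i = t) {x : E} (hx : x ∈ Good a) {ε : ℝ} (hε : 0 < ε) :
    ∀ᶠ y in 𝓝[Good a] x, ∃ τ : Equiv.Perm (Fin N), ∀ i, ‖β y (τ i) - β x i‖ < ε := by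
  classical
  obtain ⟨s, hs0, hs⟩ := B2_sep (hinj x hx)
  have hc : ∀ i, ContinuousAt (a i) x := fun i => (hx.1 i).self_of_nhds
  have hm : 0 < min ε s := lt_min hε hs0
  have h1 : ∀ᶠ y in 𝓝[Good a] x, ∀ i, ∃ t ∈ rts a y, ‖t - β x i‖ < min ε s := by
    rw [Filter.eventually_all]
    intro i
    exact (near_root hc ((hroot x hx _).2 ⟨i, rfl⟩) hm).filter_mono nhdsWithin_le_nhds
  filter_upwards [h1, self_mem_nhdsWithin] with y hy hyG
  choose t ht htd using hy
  have h2 : ∀ i, ∃ j, β y j = t i := fun i => (hroot y hyG _).1 (ht i)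
  choose j hj using h2
  have hji : Function.Injective j := by
    intro i i' hii
    by_contra hne
    have h3 : t i = t i' := by rw [← hj i, ← hj i', hii]
    have h4 := hs i i' hne
    have h5 := htd i
    have h6 := htd i'
    rw [← h3] at h6
    have h7 : ‖β x i - β x i'‖ ≤ ‖t i - β x i‖ + ‖t i - β x i'‖ := by
      have h8 : β x i - β x i' = -(t i - β x i) + (t i - β x i') := by ring
      rw [h8]
      refine (norm_add_le _ _).trans ?_
      rw [norm_neg]
    have h9 : min ε s ≤ s := min_le_right _ _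
    linarith
  refine ⟨Equiv.ofBijective j (Finite.injective_iff_bijective.1 hji), fun i => ?_⟩
  rw [Equiv.ofBijective_apply, hj i]
  exact (htd i).trans_le (min_le_left _ _)

theorem exists_match (a : Fin N → E → ℂ) : ∃ (β : E → Fin N → ℂ) (mt : E → E → Equiv.Perm (Fin N)), Match a β mt := by
  classical
  have h1 : ∀ x : E, ∃ b : Fin N → ℂ, x ∈ Good a → Function.Injective b ∧ ∀ t, t ∈ rts a x ↔ ∃ i, b i = t := by
    intro x
    by_cases hx : x ∈ Good a
    · obtain ⟨b, hb⟩ := B2_enum a hx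
      exact ⟨b, fun _ => hb⟩
    · exact ⟨fun _ => 0, fun h => absurd h hx⟩
  choose β hβ using h1
  have hinj : ∀ x ∈ Good a, Function.Injective (β x) := fun x hx => (hβ x hx).1
  have hroot : ∀ x ∈ Good a, ∀ t, t ∈ rts a x ↔ ∃ i, β x i = t := fun x hx => (hβ x hx).2
  have h2 : ∀ x : E, ∃ s : ℝ, 0 < s ∧ (x ∈ Good a → ∀ i j, i ≠ j → 8 * s ≤ ‖β x i - β x j‖) := by
    intro x
    by_cases hx : x ∈ Good a
    · obtain ⟨s, hs0, hs⟩ := B2_sep (hinj x hx)
      exact ⟨s, hs0, fun _ => hs⟩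
    · exact ⟨1, one_pos, fun h => absurd h hx⟩
  choose sep hsep0 hsep using h2
  have h3 : ∀ x y : E, ∃ σ : Equiv.Perm (Fin N), (∃ τ : Equiv.Perm (Fin N), ∀ i, ‖β y (τ i) - β x i‖ < sep x) →
      ∀ i, ‖β y (σ i) - β x i‖ < sep x := by
    intro x y
    by_cases h : ∃ τ : Equiv.Perm (Fin N), ∀ i, ‖β y (τ i) - β x i‖ < sep x
    · obtain ⟨τ, hτ⟩ := h
      exact ⟨τ, fun _ => hτ⟩
    · exact ⟨1, fun h' => absurd h' h⟩
  choose mt hmt using h3
  refine ⟨β, mt, hinj, hroot, fun x hx ε hε => ?_⟩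
  have hm : 0 < min ε (sep x) := lt_min hε (hsep0 x)
  filter_upwards [B2_perm hinj hroot hx hm] with y hy i
  obtain ⟨τ, hτ⟩ := hy
  have hτs : ∀ i, ‖β y (τ i) - β x i‖ < sep x := fun i => (hτ i).trans_le (min_le_right _ _)
  have hσ := hmt x y ⟨τ, hτs⟩
  -- the permutations agree
  have hag : mt x y i = τ i := by
    by_contra hne
    obtain ⟨i', hi'⟩ : ∃ i', mt x y i' = τ i := ⟨(mt x y).symm (τ i), (mt x y).apply_symm_apply _⟩
    have hii : i ≠ i' := by
      rintro rfl
      exact hne hi'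
    have h4 := hsep x hx i i' hii
    have h5 := hτs i
    have h6 := hσ i'
    rw [hi'] at h6
    have h7 : ‖β x i - β x i'‖ ≤ ‖β y (τ i) - β x i‖ + ‖β y (τ i) - β x i'‖ := by
      have h8 : β x i - β x i' = -(β y (τ i) - β x i) + (β y (τ i) - β x i') := by ring
      rw [h8]
      refine (norm_add_le _ _).trans ?_
      rw [norm_neg]
    have h9 := hsep0 x
    linarith
  rw [hag]
  exact (hτ i).trans_le (min_le_left _ _)

theorem Match.unique {β : E → Fin N → ℂ} {mt : E → E → Equiv.Perm (Fin N)} (h : Match a β mt) {x : E} (hx : x ∈ Good a) :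
    ∃ ε : ℝ, 0 < ε ∧ ∀ᶠ y in 𝓝[Good a] x, ∀ i j, ‖β y j - β x i‖ < ε → j = mt x y i := by
  obtain ⟨s, hs0, hs⟩ := B2_sep (h.inj x hx)
  refine ⟨s, hs0, ?_⟩
  filter_upwards [h.near x hx s hs0] with y hy i j hij
  by_contra hne
  obtain ⟨i', hi'⟩ : ∃ i', mt x y i' = j := ⟨(mt x y).symm j, (mt x y).apply_symm_apply _⟩
  have hii : i ≠ i' := by
    rintro rfl
    exact hne hi'.symm
  have h4 := hs i i' hii
  have h6 := hy i'
  rw [hi'] at h6
  have h7 : ‖β x i - β x i'‖ ≤ ‖β y j - β x i‖ + ‖β y j - β x i'‖ := by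
    have h8 : β x i - β x i' = -(β y j - β x i) + (β y j - β x i') := by ring
    rw [h8]
    refine (norm_add_le _ _).trans ?_
    rw [norm_neg]
  linarith

theorem Match.cocycle {β : E → Fin N → ℂ} {mt : E → E → Equiv.Perm (Fin N)} (h : Match a β mt) :
    ∀ x ∈ Good a, ∀ᶠ y in 𝓝[Good a] x, ∀ᶠ w in 𝓝[Good a] y, ∀ i, mt y w (mt x y i) = mt x w i := by
  intro x hx
  obtain ⟨ε, hε, hu⟩ := h.unique hx
  filter_upwards [eventually_eventually_nhdsWithin.2 hu, h.near x hx (ε / 2) (half_pos hε), self_mem_nhdsWithin]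
    with y hy1 hy2 hyG
  filter_upwards [hy1, h.near y hyG (ε / 2) (half_pos hε)] with w hw1 hw2 i
  refine hw1 i _ ?_
  have h1 := hw2 (mt x y i)
  have h2 := hy2 i
  have h3 : β w (mt y w (mt x y i)) - β x i = (β w (mt y w (mt x y i)) - β y (mt x y i)) + (β y (mt x y i) - β x i) := by
    ring
  rw [h3]
  refine (norm_add_le _ _).trans_lt ?_
  linarith

end ZrD
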