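import Pool.Agent.helper60.ZrD.B2

set_option autoImplicit false

/-!
# ZrD, module B3: the local system of functions on the roots modulo constants (written by helper60)
-/

noncomputable section

namespace ZrD

open Filter Topology Set

variable {E : Type*} [NormedAddCommGroup E] [NormedSpace ℂ E] {N : ℕ} {a : Fin N → E → ℂ}

theorem finrank_quo {N : ℕ} (hN : 1 ≤ N) : Module.finrank ℂ (Quo N) = N - 1 := by
  have h1 := Submodule.finrank_quotient_add_finrank (Submodule.span ℂ {(fun _ => 1 : Fin N → ℂ)})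
  have h2 : (fun _ => 1 : Fin N → ℂ) ≠ 0 := by
    intro h
    have h3 := congrFun h ⟨0, hN⟩
    exact one_ne_zero h3
  rw [finrank_span_singleton h2, Module.finrank_fin_fun] at h1
  show Module.finrank ℂ ((Fin N → ℂ) ⧸ (Submodule.span ℂ {(fun _ => 1 : Fin N → ℂ)})) = N - 1
  omega

/-- the difference of two values -/
def dif {N : ℕ} (i j : Fin N) : Quo N →ₗ[ℂ] ℂ :=
  Submodule.liftQ _ (LinearMap.proj (R := ℂ) (φ := fun _ : Fin N => ℂ) i - LinearMap.proj j) (by
    rw [Submodule.span_le, singleton_subset_iff, SetLike.mem_coe, LinearMap.mem_ker, LinearMap.sub_apply,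
      LinearMap.proj_apply, LinearMap.proj_apply, sub_self])

theorem dif_mk {N : ℕ} (i j : Fin N) (u : Fin N → ℂ) : dif i j (Submodule.Quotient.mk u) = u i - u j := rfl

theorem dif_act {N : ℕ} (σ : Equiv.Perm (Fin N)) (i j : Fin N) (m : Quo N) : dif (σ i) (σ j) (act σ m) = dif i j m := by
  obtain ⟨u, rfl⟩ := Submodule.Quotient.mk_surjective _ m
  rw [act_mk, dif_mk, dif_mk, Equiv.symm_apply_apply, Equiv.symm_apply_apply]

theorem quo_ext {N : ℕ} {m : Quo N} (h : ∀ i j, dif i j m = 0) : m = 0 := by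
  obtain ⟨u, rfl⟩ := Submodule.Quotient.mk_surjective _ m
  rw [Submodule.Quotient.mk_eq_zero, Submodule.mem_span_singleton]
  rcases Nat.eq_zero_or_pos N with rfl | hN
  · exact ⟨0, Subsingleton.elim _ _⟩
  · refine ⟨u ⟨0, hN⟩, ?_⟩
    funext i
    have h1 := h i ⟨0, hN⟩
    rw [dif_mk, sub_eq_zero] at h1
    rw [h1, Pi.smul_apply, smul_eq_mul, mul_one]

theorem locsys {β : E → Fin N → ℂ} {mt : E → E → Equiv.Perm (Fin N)} (h : Match a β mt) :
    ZrL.IsLocSys (Good a) (fun x y => act (mt x y)) := by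
  intro x hx
  filter_upwards [h.cocycle x hx] with y hy
  filter_upwards [hy] with w hw
  intro m
  obtain ⟨u, rfl⟩ := Submodule.Quotient.mk_surjective _ m
  show act (mt y w) (act (mt x y) (Submodule.Quotient.mk u)) = act (mt x w) (Submodule.Quotient.mk u)
  rw [act_mk, act_mk, act_mk]
  congr 1
  funext i
  have h1 := hw ((mt x w).symm i)
  rw [Equiv.apply_symm_apply] at h1
  have h2 : (mt x y).symm ((mt y w).symm i) = (mt x w).symm i := by
    rw [← h1, Equiv.symm_apply_apply, Equiv.symm_apply_apply, h1]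
  rw [h2]

end ZrD
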