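import Pool.Agent.helper60.ZrD.B3

set_option autoImplicit false

/-!
# ZrD, module B4: the defect is at most one at a fold point

Let `T` be the finite set `rts a q`, `T.ncard + 1 = N`; `r0 > 0` with `4 * r0 < ‖τ - τ'‖` for `τ ≠ τ'` in `T`. Near `q` every root is within `r0` of a unique
point of `T`, and every point of `T` has a root within `r0`. Functions on `T` give flat sections over the complement of `{f = 0}`, by composition with the map
which sends a root to the point of `T` near it. At every point these sections span a space of dimension `N - 2` modulo constants.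
-/

noncomputable section

namespace ZrD

open Filter Topology Set

variable {E : Type*} [NormedAddCommGroup E] [NormedSpace ℂ E] {N : ℕ} {a : Fin N → E → ℂ}

/-- the points of a finite set are separated -/
theorem exists_sep {T : Set ℂ} (hT : T.Finite) :
    ∃ r0 : ℝ, 0 < r0 ∧ ∀ τ ∈ T, ∀ τ' ∈ T, τ ≠ τ' → 4 * r0 < ‖τ - τ'‖ := by
  have h1 : ∀ᶠ r : ℝ in 𝓝[>] 0, ∀ τ ∈ T, ∀ τ' ∈ T, τ ≠ τ' → 4 * r < ‖τ - τ'‖ := by
    rw [Filter.eventually_all_finite hT]
    intro τ _
    rw [Filter.eventually_all_finite hT]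
    intro τ' _
    by_cases hne : τ = τ'
    · exact Eventually.of_forall fun r h => absurd hne h
    · have h2 : 0 < ‖τ - τ'‖ / 4 := by
        have := norm_pos_iff.2 (sub_ne_zero.2 hne)
        positivity
      have h3 : ∀ᶠ r : ℝ in 𝓝 0, r < ‖τ - τ'‖ / 4 := eventually_lt_nhds h2
      filter_upwards [h3.filter_mono nhdsWithin_le_nhds] with r hr _
      linarith
  obtain ⟨r, hr, hr0⟩ := (h1.and self_mem_nhdsWithin).exists
  exact ⟨r, hr0, hr⟩

/-- a point of `T` within `r0` of `t`, if there is one -/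
def pk (T : Set ℂ) [Nonempty T] (r0 : ℝ) (t : ℂ) : T := by
  classical
  exact if h : ∃ τ : T, ‖t - τ‖ < r0 then h.choose else Classical.arbitrary T

theorem pk_eq {T : Set ℂ} [Nonempty T] {r0 : ℝ} (hr : 0 < r0)
    (hs : ∀ τ ∈ T, ∀ τ' ∈ T, τ ≠ τ' → 4 * r0 < ‖τ - τ'‖) {t : ℂ} {τ : T} (h : ‖t - τ‖ < r0) :
    pk T r0 t = τ := by
  have h1 : ∃ τ : T, ‖t - τ‖ < r0 := ⟨τ, h⟩
  have h2 : pk T r0 t = h1.choose := dif_pos h1
  have h3 := h1.choose_spec
  rw [← h2] at h3
  by_contra hne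
  have h4 := hs _ (pk T r0 t).2 _ τ.2 (fun h => hne (Subtype.ext h))
  have h5 : ‖((pk T r0 t : T) : ℂ) - τ‖ ≤ ‖t - (pk T r0 t : T)‖ + ‖t - τ‖ := by
    have h6 : ((pk T r0 t : T) : ℂ) - τ = (t - τ) - (t - (pk T r0 t : T)) := by ring
    rw [h6]
    exact (norm_sub_le _ _).trans (by linarith)
  linarith

theorem defect_one {β : E → Fin N → ℂ} {mt : E → E → Equiv.Perm (Fin N)} (h : Match a β mt) {f : E → ℂ} {q : E}
    (hc : ∀ i, ∀ᶠ y in 𝓝 q, ContinuousAt (a i) y) (hl : ∀ᶠ x in 𝓝 q, (f x = 0 ↔ (rts a x).ncard < N))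
    (hq : (rts a q).ncard + 1 = N) :
    ZrL.Defect (fun x y => act (mt x y)) {x | f x = 0} 1 q := by
  have hN : 1 ≤ N := by omega
  set T : Set ℂ := rts a q with hTdef
  have hT : T.Finite := rts_fin a q
  rcases T.eq_empty_or_nonempty with hTe | hTn
  · refine ⟨univ, univ_mem, fun x _ => ?_⟩
    rw [hTe, ncard_empty] at hq
    rw [finrank_quo hN]
    omega
  have : Nonempty T := hTn.to_subtype
  have : Fintype T := hT.fintype
  obtain ⟨r0, hr0, hsep⟩ := exists_sep hT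
  have hcq : ∀ i, ContinuousAt (a i) q := fun i => (hc i).self_of_nhds
  have hc' : ∀ᶠ y in 𝓝 q, ∀ i, ContinuousAt (a i) y := eventually_all.2 hc
  have hnear : ∀ᶠ x in 𝓝 q, ∀ τ ∈ T, ∃ t ∈ rts a x, ‖t - τ‖ < r0 := by
    rw [Filter.eventually_all_finite hT]
    exact fun τ hτ => near_root hcq hτ hr0
  have hfar : ∀ᶠ x in 𝓝 q, ∀ t ∈ rts a x, ∃ τ ∈ T, ‖t - τ‖ < r0 := far_root hcq hr0
  obtain ⟨O, hO, hOo, hqO⟩ := eventually_nhds_iff.1 (hc'.and (hl.and (hnear.and hfar)))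
  refine ⟨O, hOo.mem_nhds hqO, ?_⟩
  have hgood : ∀ x ∈ O \ {x | f x = 0}, x ∈ Good a := by
    rintro x ⟨hx, hfx⟩
    refine ⟨fun i => ?_, ?_⟩
    · filter_upwards [hOo.mem_nhds hx] with y hy
      exact (hO y hy).1 i
    · have h1 : ¬ (rts a x).ncard < N := fun h2 => hfx ((hO x hx).2.1.2 h2)
      exact le_antisymm (rts_card a x) (not_lt.1 h1)
  have hroot : ∀ x ∈ O \ {x | f x = 0}, ∀ i, ∃ τ : T, ‖β x i - τ‖ < r0 := by
    intro x hx i
    obtain ⟨τ, hτ, h1⟩ := (hO x hx.1).2.2.2 (β x i) ((h.root x (hgood x hx) _).2 ⟨i, rfl⟩)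
    exact ⟨⟨τ, hτ⟩, h1⟩
  have hatt : ∀ x ∈ O \ {x | f x = 0}, ∀ τ : T, ∃ i, pk T r0 (β x i) = τ := by
    intro x hx τ
    obtain ⟨t, ht, h1⟩ := (hO x hx.1).2.2.1 τ τ.2
    obtain ⟨i, rfl⟩ := (h.root x (hgood x hx) _).1 ht
    exact ⟨i, pk_eq hr0 hsep h1⟩
  -- the flat sections
  have hflat : ∀ v : T → ℂ, ZrL.IsSec (fun x y => act (mt x y)) (O \ {x | f x = 0})
      (fun x => (Submodule.Quotient.mk (fun i => v (pk T r0 (β x i))) : Quo N)) := by
    intro v x hx
    have h1 : ∀ᶠ y in 𝓝[O \ {x | f x = 0}] x, ∀ i, pk T r0 (β y (mt x y i)) = pk T r0 (β x i) := by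
      rw [eventually_all]
      intro i
      obtain ⟨τ, hτ⟩ := hroot x hx i
      have h2 : 0 < r0 - ‖β x i - τ‖ := by linarith
      have h3 := (h.near x (hgood x hx) _ h2).filter_mono (nhdsWithin_mono x (fun y hy => hgood y hy))
      filter_upwards [h3] with y hy
      rw [pk_eq hr0 hsep hτ]
      refine pk_eq hr0 hsep ?_
      have h4 : β y (mt x y i) - τ = (β y (mt x y i) - β x i) + (β x i - τ) := by ring
      rw [h4]
      have h5 := hy i
      calc _ ≤ ‖β y (mt x y i) - β x i‖ + ‖β x i - τ‖ := norm_add_le _ _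
        _ < r0 := by linarith
    filter_upwards [h1] with y hy
    show (Submodule.Quotient.mk (fun i => v (pk T r0 (β y i))) : Quo N) =
      act (mt x y) (Submodule.Quotient.mk (fun i => v (pk T r0 (β x i))))
    rw [act_mk]
    congr 1
    funext j
    have h2 := hy ((mt x y).symm j)
    rw [Equiv.apply_symm_apply] at h2
    rw [h2]
  intro x hx
  let Φ : (T → ℂ) →ₗ[ℂ] Quo N :=
    (Submodule.mkQ (Submodule.span ℂ {(fun _ => 1 : Fin N → ℂ)})).comp
      (LinearMap.funLeft ℂ ℂ (fun i => pk T r0 (β x i)))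
  have hΦ : ∀ v : T → ℂ, Φ v = (Submodule.Quotient.mk (fun i => v (pk T r0 (β x i))) : Quo N) := fun v => rfl
  have hker : LinearMap.ker Φ ≤ Submodule.span ℂ {(fun _ => 1 : T → ℂ)} := by
    intro v hv
    rw [LinearMap.mem_ker, hΦ, Submodule.Quotient.mk_eq_zero, Submodule.mem_span_singleton] at hv
    obtain ⟨c, hc1⟩ := hv
    rw [Submodule.mem_span_singleton]
    refine ⟨c, ?_⟩
    funext τ
    obtain ⟨i, hi⟩ := hatt x hx τ
    have h1 := congrFun hc1 i
    simp only [Pi.smul_apply] at h1 ⊢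
    rw [h1, hi]
  have hrange : LinearMap.range Φ ≤ ZrL.Val (fun x y => act (mt x y)) (O \ {x | f x = 0}) x := by
    rintro _ ⟨v, rfl⟩
    exact ⟨_, hflat v, (hΦ v).symm⟩
  have h1 := Submodule.finrank_mono hrange
  have h2 := Submodule.finrank_mono hker
  have h3 : Module.finrank ℂ (Submodule.span ℂ {(fun _ => 1 : T → ℂ)}) ≤ 1 := by
    refine (finrank_span_le_card _).trans ?_
    simp
  have h4 := LinearMap.finrank_range_add_finrank_ker Φ
  have h5 : Module.finrank ℂ (T → ℂ) = T.ncard := by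
    rw [Module.finrank_fintype_fun_eq_card, ← Nat.card_eq_fintype_card, Nat.card_coe_set_eq]
  rw [finrank_quo hN]
  rw [h5] at h4
  omega

end ZrD
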