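import Pool.Agent.helper60.ZrD.Defs

set_option autoImplicit false

/-!
# ZrD, module B5a: the Eisenstein root near `0`
-/

noncomputable section

namespace ZrD

open Filter Topology Set

variable {E : Type*} [NormedAddCommGroup E] [NormedSpace ℂ E] {N : ℕ} {a : Fin N → E → ℂ}

/-- implicit function, continuous near `0` -/
theorem eis_ift {G : ℂ × ℂ → ℂ} {κ d : ℂ} (hG : AnalyticAt ℂ G (0, κ)) (h0 : G (0, κ) = 0)
    (hd : HasDerivAt (fun S => G (0, S)) d κ) (hd0 : d ≠ 0) :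
    ∃ (r : ℝ) (S0 : ℂ → ℂ), 0 < r ∧ ContinuousOn S0 (Metric.ball 0 r) ∧ S0 0 = κ ∧
      ∀ ζ ∈ Metric.ball (0 : ℂ) r, G (ζ, S0 ζ) = 0 := by
  set G' : ℂ × ℂ →L[ℂ] ℂ := fderiv ℂ G (0, κ) with hG'
  have hs : HasStrictFDerivAt G G' (0, κ) := hG.hasStrictFDerivAt
  have hd1 : G' (0, 1) = d := by
    have h1 : HasDerivAt (fun S : ℂ => ((0, S) : ℂ × ℂ)) ((0, 1) : ℂ × ℂ) κ :=
      (hasDerivAt_const κ (0 : ℂ)).prodMk (hasDerivAt_id κ)
    have h2 : HasDerivAt (fun S : ℂ => G (0, S)) (G' (0, 1)) κ := hs.hasFDerivAt.comp_hasDerivAt κ h1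
    exact h2.unique hd
  have hlin : ∀ x y : ℂ, G' (x, y) = G' (x, 0) + y * d := by
    intro x y
    have h1 : ((x, y) : ℂ × ℂ) = (x, 0) + y • (0, 1) := by
      ext <;> simp
    rw [h1, map_add, map_smul, hd1, smul_eq_mul]
  let e : (ℂ × ℂ) ≃L[ℂ] (ℂ × ℂ) := ContinuousLinearEquiv.equivOfInverse
    ((ContinuousLinearMap.fst ℂ ℂ ℂ).prod G')
    ((ContinuousLinearMap.fst ℂ ℂ ℂ).prod (d⁻¹ • (ContinuousLinearMap.snd ℂ ℂ ℂ -
      G'.comp ((ContinuousLinearMap.fst ℂ ℂ ℂ).prod (0 : ℂ × ℂ →L[ℂ] ℂ)))))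
    (by
      rintro ⟨x, y⟩
      have h1 := hlin x y
      ext
      · simp
      · simp only [ContinuousLinearMap.prod_apply, ContinuousLinearMap.coe_fst', ContinuousLinearMap.smul_apply,
          ContinuousLinearMap.sub_apply, ContinuousLinearMap.coe_snd', ContinuousLinearMap.comp_apply,
          ContinuousLinearMap.zero_apply, smul_eq_mul]
        rw [h1]
        field_simp
        ring)
    (by
      rintro ⟨x, y⟩
      ext
      · simp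
      · simp only [ContinuousLinearMap.prod_apply, ContinuousLinearMap.coe_fst', ContinuousLinearMap.smul_apply,
          ContinuousLinearMap.sub_apply, ContinuousLinearMap.coe_snd', ContinuousLinearMap.comp_apply,
          ContinuousLinearMap.zero_apply, smul_eq_mul]
        rw [hlin]
        field_simp
        ring)
  have hΦ : HasStrictFDerivAt (fun q : ℂ × ℂ => (q.1, G q)) (e : (ℂ × ℂ) →L[ℂ] (ℂ × ℂ)) (0, κ) :=
    hasStrictFDerivAt_fst.prodMk hs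
  set Φ := hΦ.toOpenPartialHomeomorph (fun q : ℂ × ℂ => (q.1, G q)) with hΦdef
  have hcoe : ∀ q, Φ q = (q.1, G q) := fun q => rfl
  have hmem : ((0, κ) : ℂ × ℂ) ∈ Φ.source := hΦ.mem_toOpenPartialHomeomorph_source
  have hmem2 : ((0, 0) : ℂ × ℂ) ∈ Φ.target := by
    have h1 := Φ.map_source hmem
    rw [hcoe, h0] at h1
    exact h1
  have hO : IsOpen {ζ : ℂ | ((ζ, 0) : ℂ × ℂ) ∈ Φ.target} := Φ.open_target.preimage (by fun_prop)
  obtain ⟨r, hr, hsub⟩ := Metric.isOpen_iff.1 hO 0 hmem2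
  refine ⟨r, fun ζ => (Φ.symm (ζ, 0)).2, hr, ?_, ?_, ?_⟩
  · have h1 : ContinuousOn (fun ζ : ℂ => Φ.symm (ζ, 0)) (Metric.ball 0 r) :=
      Φ.continuousOn_symm.comp (Continuous.continuousOn (by fun_prop)) (fun ζ hζ => hsub hζ)
    exact continuous_snd.comp_continuousOn h1
  · have h1 : Φ.symm (0, 0) = (0, κ) := by
      have h2 := Φ.left_inv hmem
      rw [hcoe, h0] at h2
      exact h2
    show (Φ.symm (0, 0)).2 = κ
    rw [h1]
  · intro ζ hζ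
    have h1 := Φ.right_inv (hsub hζ : ((ζ, 0) : ℂ × ℂ) ∈ Φ.target)
    rw [hcoe] at h1
    have h2 : (Φ.symm (ζ, 0)).1 = ζ := congrArg Prod.fst h1
    have h3 : G (Φ.symm (ζ, 0)) = 0 := congrArg Prod.snd h1
    have h4 : ((ζ, (Φ.symm (ζ, 0)).2) : ℂ × ℂ) = Φ.symm (ζ, 0) := Prod.ext h2.symm rfl
    rw [h4]
    exact h3

theorem eis (hN : 1 ≤ N) (han : ∀ i, AnalyticAt ℂ (a i) 0) (hz : ∀ i, a i 0 = 0) {v : E}
    (hv : ∀ i : Fin N, (i : ℕ) = 0 → fderiv ℂ (a i) 0 v ≠ 0) :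
    ∃ (ρ : ℝ) (τ : ℂ → ℂ), 0 < ρ ∧ ContinuousOn τ (Metric.ball 0 ρ) ∧
      (∀ ζ : ℂ, 0 < ‖ζ‖ → ‖ζ‖ < ρ → τ ζ ∈ rts a (ζ ^ N • v)) ∧
      ∀ ζ : ℂ, 0 < ‖ζ‖ → ‖ζ‖ < ρ → ∀ j < N, ∀ k < N, j ≠ k →
        τ (Complex.exp (2 * Real.pi * Complex.I / N) ^ j * ζ) ≠ τ (Complex.exp (2 * Real.pi * Complex.I / N) ^ k * ζ) := by
  have hN0 : N ≠ 0 := by omega
  set i0 : Fin N := ⟨0, hN⟩ with hi0
  set c : ℂ := fderiv ℂ (a i0) 0 v with hc
  have hc0 : c ≠ 0 := hv i0 rfl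
  -- the functions `φ i w = a i (w • v)` and their slopes
  let φ : Fin N → ℂ → ℂ := fun i w => a i (w • v)
  let A : Fin N → ℂ → ℂ := fun i => dslope (φ i) 0
  have hφ0 : ∀ i, φ i 0 = 0 := fun i => by
    show a i ((0 : ℂ) • v) = 0
    rw [zero_smul]
    exact hz i
  have hφA : ∀ i w, φ i w = w * A i w := by
    intro i w
    have h1 := sub_smul_dslope (φ i) 0 w
    rw [hφ0, sub_zero, sub_zero, smul_eq_mul] at h1
    exact h1.symm
  have hφan : ∀ i, AnalyticAt ℂ (φ i) 0 := by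
    intro i
    have h1 : AnalyticAt ℂ (fun w : ℂ => w • v) 0 := analyticAt_id.smul analyticAt_const
    have h2 : AnalyticAt ℂ (a i) ((fun w : ℂ => w • v) 0) := by
      simp only [zero_smul]
      exact han i
    exact AnalyticAt.fun_comp (f := fun w : ℂ => w • v) (x := 0) h2 h1
  have hAan : ∀ i, AnalyticAt ℂ (A i) 0 := by
    intro i
    obtain ⟨p, hp⟩ := hφan i
    exact ⟨_, hp.has_fpower_series_dslope_fslope⟩
  have hA0 : A i0 0 = c := by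
    show dslope (φ i0) 0 0 = c
    rw [dslope_same]
    have h1 : HasDerivAt (fun w : ℂ => w • v) v 0 := by
      simpa using (hasDerivAt_id (0 : ℂ)).smul_const v
    have h2 : HasFDerivAt (a i0) (fderiv ℂ (a i0) 0) ((0 : ℂ) • v) := by
      rw [zero_smul]
      exact (han i0).differentiableAt.hasFDerivAt
    exact (h2.comp_hasDerivAt (0 : ℂ) h1).deriv
  obtain ⟨κ, hκ⟩ := IsAlgClosed.exists_pow_nat_eq (-c) hN
  have hκ0 : κ ≠ 0 := by
    rintro rfl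
    rw [zero_pow hN0] at hκ
    exact hc0 (by linear_combination hκ)
  let G : ℂ × ℂ → ℂ := fun q => q.2 ^ N + ∑ i : Fin N, A i (q.1 ^ N) * q.1 ^ (i : ℕ) * q.2 ^ (i : ℕ)
  have hG0 : ∀ S : ℂ, G (0, S) = S ^ N + c := by
    intro S
    show S ^ N + ∑ i : Fin N, A i ((0 : ℂ) ^ N) * (0 : ℂ) ^ (i : ℕ) * S ^ (i : ℕ) = S ^ N + c
    rw [Finset.sum_eq_single i0]
    · rw [zero_pow hN0, hA0]
      simp [hi0]
    · intro i _ hi
      have h1 : (i : ℕ) ≠ 0 := fun h => hi (Fin.ext h)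
      rw [zero_pow h1]
      ring
    · intro h
      exact absurd (Finset.mem_univ _) h
  have hGan : AnalyticAt ℂ G (0, κ) := by
    have h1 : AnalyticAt ℂ (fun q : ℂ × ℂ => q.1) (0, κ) := analyticAt_fst
    have h2 : AnalyticAt ℂ (fun q : ℂ × ℂ => q.2) (0, κ) := analyticAt_snd
    refine (h2.fun_pow N).fun_add (Finset.analyticAt_fun_sum _ fun i _ => ?_)
    have h3 : AnalyticAt ℂ (fun q : ℂ × ℂ => q.1 ^ N) (0, κ) := h1.fun_pow N
    have h4 : AnalyticAt ℂ (A i) ((fun q : ℂ × ℂ => q.1 ^ N) (0, κ)) := by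
      simp only [zero_pow hN0]
      exact hAan i
    have h5 : AnalyticAt ℂ (fun q : ℂ × ℂ => A i (q.1 ^ N)) (0, κ) :=
      AnalyticAt.fun_comp (f := fun q : ℂ × ℂ => q.1 ^ N) (x := (0, κ)) h4 h3
    exact (h5.fun_mul (h1.fun_pow _)).fun_mul (h2.fun_pow _)
  have hd : HasDerivAt (fun S => G (0, S)) ((N : ℂ) * κ ^ (N - 1)) κ := by
    have h1 : (fun S => G (0, S)) = fun S => S ^ N + c := funext hG0
    rw [h1]
    exact (hasDerivAt_pow N κ).add_const c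
  obtain ⟨r, S0, hr, hS0, hS0κ, hGS⟩ := eis_ift hGan (by rw [hG0, hκ]; ring) hd
    (mul_ne_zero (Nat.cast_ne_zero.2 hN0) (pow_ne_zero _ hκ0))
  have hpev : ∀ ζ S : ℂ, pev a (ζ ^ N • v) (ζ * S) = ζ ^ N * G (ζ, S) := by
    intro ζ S
    show (ζ * S) ^ N + ∑ i : Fin N, φ i (ζ ^ N) * (ζ * S) ^ (i : ℕ) =
      ζ ^ N * (S ^ N + ∑ i : Fin N, A i (ζ ^ N) * ζ ^ (i : ℕ) * S ^ (i : ℕ))
    rw [mul_add, Finset.mul_sum, mul_pow]
    congr 1
    refine Finset.sum_congr rfl fun i _ => ?_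
    rw [hφA, mul_pow]
    ring
  set ω : ℂ := Complex.exp (2 * Real.pi * Complex.I / N) with hω
  have hprim : IsPrimitiveRoot ω N := Complex.isPrimitiveRoot_exp N hN0
  have hωn : ∀ j : ℕ, ‖ω ^ j‖ = 1 := by
    intro j
    have h1 : ‖ω‖ = 1 := hprim.norm'_eq_one hN0
    rw [norm_pow, h1, one_pow]
  have hS0c : ContinuousAt S0 0 := hS0.continuousAt (Metric.ball_mem_nhds 0 hr)
  have hev : ∀ᶠ ζ in 𝓝 (0 : ℂ), ∀ p ∈ (Finset.range N ×ˢ Finset.range N), p.1 ≠ p.2 →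
      ω ^ p.1 * S0 (ω ^ p.1 * ζ) ≠ ω ^ p.2 * S0 (ω ^ p.2 * ζ) := by
    rw [Filter.eventually_all_finset]
    rintro ⟨j, k⟩ hjk
    rw [Finset.mem_product, Finset.mem_range, Finset.mem_range] at hjk
    by_cases hne : j = k
    · exact Eventually.of_forall fun ζ h => absurd hne h
    · have hcj : ∀ j : ℕ, ContinuousAt (fun ζ : ℂ => ω ^ j * S0 (ω ^ j * ζ)) 0 := by
        intro j
        refine continuousAt_const.mul ?_
        have h1 : ContinuousAt (fun ζ : ℂ => ω ^ j * ζ) 0 := by fun_prop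
        exact ContinuousAt.comp (f := fun ζ : ℂ => ω ^ j * ζ) (g := S0) (by simpa using hS0c) h1
      have h1 : ContinuousAt (fun ζ : ℂ => ω ^ j * S0 (ω ^ j * ζ) - ω ^ k * S0 (ω ^ k * ζ)) 0 := (hcj j).sub (hcj k)
      have h2 : ω ^ j * S0 (ω ^ j * 0) - ω ^ k * S0 (ω ^ k * 0) ≠ 0 := by
        rw [mul_zero, mul_zero, hS0κ, ← sub_mul]
        refine mul_ne_zero (sub_ne_zero.2 fun h => hne ?_) hκ0
        exact hprim.pow_inj hjk.1 hjk.2 h
      filter_upwards [h1.eventually_ne h2] with ζ h3 _ h4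
      exact h3 (sub_eq_zero.2 h4)
  obtain ⟨r', hr', hr'2⟩ := Metric.eventually_nhds_iff_ball.1 hev
  refine ⟨min r r', fun ζ => ζ * S0 ζ, lt_min hr hr', ?_, ?_, ?_⟩
  · exact continuousOn_id.mul (hS0.mono (Metric.ball_subset_ball (min_le_left _ _)))
  · intro ζ h1 h2
    show pev a (ζ ^ N • v) (ζ * S0 ζ) = 0
    rw [hpev, hGS ζ (by simpa using lt_of_lt_of_le h2 (min_le_left _ _)), mul_zero]
  · intro ζ h1 h2 j hj k hk hjk h3
    have hζ0 : ζ ≠ 0 := norm_pos_iff.1 h1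
    have h4 := hr'2 ζ (by simpa using lt_of_lt_of_le h2 (min_le_right _ _)) (j, k)
      (Finset.mem_product.2 ⟨Finset.mem_range.2 hj, Finset.mem_range.2 hk⟩) hjk
    apply h4
    have h5 : ζ * (ω ^ j * S0 (ω ^ j * ζ)) = ζ * (ω ^ k * S0 (ω ^ k * ζ)) := by
      have h6 : (ω ^ j * ζ) * S0 (ω ^ j * ζ) = (ω ^ k * ζ) * S0 (ω ^ k * ζ) := h3
      linear_combination h6
    exact mul_left_cancel₀ hζ0 h5

end ZrD
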