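import Pool.Agent.helper60.ZrD.B3
import Pool.Agent.helper60.ZrL.C1
import Pool.Agent.helper60.ZrD.B5a

set_option autoImplicit false

/-!
# ZrD, module B5: no germs of flat sections (the monodromy is transitive: Eisenstein)

Part 1 (`eis`). Let `v` with `c := fderiv ℂ (a 0) 0 v ≠ 0`. For `ζ ≠ 0` small put `x = ζ ^ N • v`; substituting `t = ζ * S`: `pev a (ζ ^ N • v) (ζ * S) = ζ ^ N * (S ^ N + b_0 (ζ) + ∑_{i ≥ 1} b_i (ζ) * S ^ i)` with `b_i (ζ) = a i (ζ ^ N • v) * ζ ^ i / ζ ^ N`; `a i (ζ ^ N • v) / ζ ^ N` is bounded, tends to `fderiv ℂ (a i) 0 v`, so `b_i → 0` for `i ≥ 1` and `b_0 → c`. The function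
`G (ζ, S) = S ^ N + c + ...` extends continuously to `ζ = 0` by `S ^ N + c`, analytic in `(ζ, S)` (or just: use `near_root`/`far_root` type estimates). Let `κ ^ N = - c`. The implicit function theorem at `(0, κ)` (derivative in `S`: `N * κ ^ (N - 1) ≠ 0`; `G` is `C^1` if one writes `a i (w • v) = w * A i w` with `A i` analytic near `0` (`dslope`, `AnalyticAt` of `w ↦ a i (w • v)`, value `0` at `0`):
`G (ζ, S) = S ^ N + ∑ i, A i (ζ ^ N) * ζ ^ i * S ^ i`) gives a continuous function `S0` near `ζ = 0` with `G (ζ, S0 ζ) = 0`, `S0 0 = κ`. Put `τ ζ = ζ * S0 ζ`. Statement: there are `ρ > 0` and `τ : ℂ → ℂ` continuous on `ball 0 ρ` such that for `0 < ‖ζ‖ < ρ`: `τ ζ ∈ rts a (ζ ^ N • v)` and, with `ω = exp (2 π i / N)`, the `N` numbers `τ (ω ^ j * ζ)`, `j < N`, are different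
(`(ω ^ j * ζ) ^ N = ζ ^ N`; `τ (ω ^ j * ζ) = ω ^ j * ζ * S0 (ω ^ j * ζ)` and `S0 ≈ κ`).
Part 2 (`no_sec`). Let `O, s` be given, `r > 0` small, `x θ = (r * exp (i θ / N)) ^ N • v = (r ^ N * exp (i θ)) • v ∈ O`, `f (x θ) ≠ 0` (`N` different roots, `locus`), `x θ ∈ Good a`. Let `k_j θ : Fin N` be the index with `β (x θ) (k_j θ) = τ (ω ^ j * r * exp (i θ / N))`, `j ∈ ℕ`. `θ ↦ dif (k_j θ) (k_0 θ) (s (x θ))` is locally constant: for `θ'` near `θ`, `s (x θ') = act (mt ..) (s (x θ))` and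
`mt (x θ) (x θ') (k_j θ) = k_j θ'` (`Match.unique`, continuity of `τ`), `dif_act`. So it is a constant `Δ_j`. Replacing `θ` by `θ + 2 π`: `x` is unchanged, `k_j (θ + 2 π) = k_(j + 1) θ`: `Δ_j = dif (k_(j+1)) (k_1) = Δ_(j+1) - Δ_1`. So `Δ_j = j * Δ_1`, and `Δ_N = Δ_0 = 0` (`ω ^ N = 1`): `Δ_1 = 0`, all `Δ_j = 0`; the `k_j θ`, `j < N`, are all indices, so `s (x θ) = 0` (`quo_ext`).
Part 3. `f` is analytic on a small ball `B`; `B \ {f = 0}` is preconnected (`conn_an`), contained in `Good a` and `O`, and contains a point `x θ` with `s = 0`, so `s = 0` on it (`IsSec.zero`). (`N ≥ 1`.)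
-/

noncomputable section

namespace ZrD

open Filter Topology Set

variable {E : Type*} [NormedAddCommGroup E] [NormedSpace ℂ E] {N : ℕ} {a : Fin N → E → ℂ}

/-! ### the loop -/

/-- the loop in the parameter -/
def B5_z (N : ℕ) (r θ : ℝ) : ℂ := r * Complex.exp (((θ / N : ℝ) : ℂ) * Complex.I)

/-- the primitive root of unity -/
def B5_w (N : ℕ) : ℂ := Complex.exp (2 * Real.pi * Complex.I / N)

theorem B5_z_norm (N : ℕ) {r : ℝ} (hr : 0 < r) (θ : ℝ) : ‖B5_z N r θ‖ = r := by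
  unfold B5_z
  rw [norm_mul, Complex.norm_exp_ofReal_mul_I, mul_one, Complex.norm_real, Real.norm_of_nonneg hr.le]

theorem B5_z_cont (N : ℕ) (r : ℝ) : Continuous (B5_z N r) := by
  unfold B5_z
  fun_prop

theorem B5_w_pow {N : ℕ} (hN : 1 ≤ N) : B5_w N ^ N = 1 :=
  (Complex.isPrimitiveRoot_exp N (by omega)).pow_eq_one

theorem B5_w_norm {N : ℕ} (hN : 1 ≤ N) : ‖B5_w N‖ = 1 := by
  have h1 := congrArg norm (B5_w_pow hN)
  rw [norm_pow, norm_one] at h1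
  exact (pow_eq_one_iff_of_nonneg (norm_nonneg _) (by omega)).1 h1

theorem B5_z_add {N : ℕ} (hN : 1 ≤ N) (r θ : ℝ) : B5_z N r (θ + 2 * Real.pi) = B5_w N * B5_z N r θ := by
  have hN' : (N : ℂ) ≠ 0 := by
    have : N ≠ 0 := by omega
    exact_mod_cast this
  unfold B5_z B5_w
  have e : ((((θ + 2 * Real.pi) / N : ℝ)) : ℂ) * Complex.I =
      2 * Real.pi * Complex.I / N + ((θ / N : ℝ) : ℂ) * Complex.I := by
    push_cast
    field_simp
    ring
  rw [e, Complex.exp_add]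
  ring

theorem B5_dif_sub {N : ℕ} (i j l : Fin N) (m : Quo N) : dif i j m = dif i l m - dif j l m := by
  obtain ⟨u, rfl⟩ := Submodule.Quotient.mk_surjective _ m
  rw [dif_mk, dif_mk, dif_mk]
  ring

theorem B5_dif_self {N : ℕ} (i : Fin N) (m : Quo N) : dif i i m = 0 := by
  obtain ⟨u, rfl⟩ := Submodule.Quotient.mk_surjective _ m
  rw [dif_mk, sub_self]

/-- monodromy argument: a flat section vanishes at one point -/
theorem B5_loop (hN : 1 ≤ N) {β : E → Fin N → ℂ} {mt : E → E → Equiv.Perm (Fin N)} (h : Match a β mt)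
    {v : E} {ρ r : ℝ} {τ : ℂ → ℂ} (hr : 0 < r) (hrρ : r < ρ) (hc : ContinuousOn τ (Metric.ball 0 ρ))
    (hroot : ∀ ζ : ℂ, 0 < ‖ζ‖ → ‖ζ‖ < ρ → τ ζ ∈ rts a (ζ ^ N • v))
    (hdiff : ∀ ζ : ℂ, 0 < ‖ζ‖ → ‖ζ‖ < ρ → ∀ j < N, ∀ k < N, j ≠ k → τ (B5_w N ^ j * ζ) ≠ τ (B5_w N ^ k * ζ))
    {A : Set E} {s : E → Quo N} (hs : ZrL.IsSec (fun x y => act (mt x y)) A s) (hAG : A ⊆ Good a)
    (hxA : ∀ θ : ℝ, B5_z N r θ ^ N • v ∈ A) : s (B5_z N r 0 ^ N • v) = 0 := by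
  classical
  obtain ⟨x, hx⟩ : ∃ x : ℝ → E, x = fun θ => B5_z N r θ ^ N • v := ⟨_, rfl⟩
  have hxA' : ∀ θ, x θ ∈ A := fun θ => by rw [hx]; exact hxA θ
  have hxc : Continuous x := by
    rw [hx]
    exact ((B5_z_cont N r).pow N).smul continuous_const
  have hwz : ∀ (j : ℕ) (θ : ℝ), ‖B5_w N ^ j * B5_z N r θ‖ = r := fun j θ => by
    rw [norm_mul, norm_pow, B5_w_norm hN, one_pow, one_mul, B5_z_norm N hr]
  obtain ⟨T, hT⟩ : ∃ T : ℕ → ℝ → ℂ, T = fun j θ => τ (B5_w N ^ j * B5_z N r θ) := ⟨_, rfl⟩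
  have hTc : ∀ j, Continuous (T j) := fun j => by
    rw [hT]
    exact hc.comp_continuous (continuous_const.mul (B5_z_cont N r)) fun θ => by
      rw [mem_ball_zero_iff, hwz]
      exact hrρ
  have hTr : ∀ j θ, T j θ ∈ rts a (x θ) := fun j θ => by
    have h1 := hroot (B5_w N ^ j * B5_z N r θ) (by rw [hwz]; exact hr) (by rw [hwz]; exact hrρ)
    have h2 : (B5_w N ^ j * B5_z N r θ) ^ N = B5_z N r θ ^ N := by
      rw [mul_pow, ← pow_mul, mul_comm j N, pow_mul, B5_w_pow hN, one_pow, one_mul]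
    rw [h2] at h1
    rw [hT, hx]
    exact h1
  have hex : ∀ (j : ℕ) (θ : ℝ), ∃ k : Fin N, β (x θ) k = T j θ := fun j θ =>
    (h.root (x θ) (hAG (hxA' θ)) (T j θ)).1 (hTr j θ)
  choose k hk using hex
  have hinj : ∀ θ, Function.Injective (β (x θ)) := fun θ => h.inj (x θ) (hAG (hxA' θ))
  have hx2 : ∀ θ, x (θ + 2 * Real.pi) = x θ := fun θ => by
    rw [hx]
    simp only
    rw [B5_z_add hN, mul_pow, B5_w_pow hN, one_mul]
  have hk2 : ∀ j θ, k j (θ + 2 * Real.pi) = k (j + 1) θ := fun j θ => by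
    apply hinj θ
    have h1 := hk j (θ + 2 * Real.pi)
    rw [hx2] at h1
    rw [h1, hk, hT]
    simp only
    rw [B5_z_add hN, pow_succ]
    ring_nf
  have hkN : ∀ θ, k N θ = k 0 θ := fun θ => by
    apply hinj θ
    rw [hk, hk, hT]
    simp only
    rw [B5_w_pow hN, pow_zero]
  have hkinj : ∀ θ, Function.Injective fun j : Fin N => k j θ := fun θ j l hjl => by
    by_contra hne
    have h1 : (j : ℕ) ≠ l := fun h2 => hne (Fin.ext h2)
    refine hdiff (B5_z N r θ) (by rw [B5_z_norm N hr]; exact hr) (by rw [B5_z_norm N hr]; exact hrρ)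
      j j.2 l l.2 h1 ?_
    have h2 : k j θ = k l θ := hjl
    have h3 := hk j θ
    have h4 := hk l θ
    rw [h2, h4, hT] at h3
    exact h3.symm
  have hksurj : ∀ θ, Function.Surjective fun j : Fin N => k j θ := fun θ =>
    Finite.surjective_of_injective (hkinj θ)
  obtain ⟨Δ, hΔ⟩ : ∃ Δ : ℕ → ℝ → ℂ, Δ = fun j θ => dif (k j θ) (k 0 θ) (s (x θ)) := ⟨_, rfl⟩
  have hloc : ∀ j θ, ∀ᶠ θ' in 𝓝 θ, Δ j θ' = Δ j θ := by
    intro j θ
    have htA : Tendsto x (𝓝 θ) (𝓝[A] (x θ)) :=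
      tendsto_nhdsWithin_iff.2 ⟨hxc.tendsto θ, Eventually.of_forall hxA'⟩
    have htG : Tendsto x (𝓝 θ) (𝓝[Good a] (x θ)) := htA.mono_right (nhdsWithin_mono _ hAG)
    obtain ⟨ε, hε, hu⟩ := h.unique (hAG (hxA' θ))
    have hcl : ∀ l, ∀ᶠ θ' in 𝓝 θ, ‖T l θ' - T l θ‖ < ε := fun l => by
      have h1 := (hTc l).tendsto θ
      have h2 := Metric.tendsto_nhds.1 h1 ε hε
      simpa only [dist_eq_norm] using h2
    filter_upwards [htA (hs (x θ) (hxA' θ)), htG hu, hcl j, hcl 0] with θ' g1 g2 g3 g4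
    have g1' : s (x θ') = act (mt (x θ) (x θ')) (s (x θ)) := g1
    have g2' : ∀ i l, ‖β (x θ') l - β (x θ) i‖ < ε → l = mt (x θ) (x θ') i := g2
    have e1 : k j θ' = mt (x θ) (x θ') (k j θ) := g2' _ _ (by rw [hk, hk]; exact g3)
    have e2 : k 0 θ' = mt (x θ) (x θ') (k 0 θ) := g2' _ _ (by rw [hk, hk]; exact g4)
    rw [hΔ]
    simp only
    rw [g1', e1, e2, dif_act]
  have hconst : ∀ j θ θ', Δ j θ = Δ j θ' := by
    intro j θ θ'
    have h1 : IsLocallyConstant (Δ j) := (IsLocallyConstant.iff_eventually_eq _).2 (hloc j)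
    exact h1.apply_eq_of_preconnectedSpace θ θ'
  have hstep : ∀ j, Δ (j + 1) 0 = Δ j 0 + Δ 1 0 := by
    intro j
    have h1 := hconst j (0 + 2 * Real.pi) 0
    have h2 : Δ j (0 + 2 * Real.pi) = dif (k (j + 1) 0) (k 1 0) (s (x 0)) := by
      rw [hΔ]
      simp only
      rw [hk2, hk2, hx2]
    rw [h2, B5_dif_sub _ _ (k 0 0)] at h1
    have h3 : Δ (j + 1) 0 = dif (k (j + 1) 0) (k 0 0) (s (x 0)) := by rw [hΔ]
    have h4 : Δ 1 0 = dif (k 1 0) (k 0 0) (s (x 0)) := by rw [hΔ]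
    rw [h3, h4, ← h1]
    ring
  have hlin : ∀ j : ℕ, Δ j 0 = j * Δ 1 0 := by
    intro j
    induction j with
    | zero =>
      rw [hΔ]
      simp only [Nat.cast_zero, zero_mul]
      exact B5_dif_self _ _
    | succ j ih =>
      rw [hstep, ih]
      push_cast
      ring
  have hN0 : Δ N 0 = 0 := by
    rw [hΔ]
    simp only
    rw [hkN]
    exact B5_dif_self _ _
  have h1 : Δ 1 0 = 0 := by
    rw [hlin] at hN0
    refine (mul_eq_zero.1 hN0).resolve_left ?_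
    have : N ≠ 0 := by omega
    exact_mod_cast this
  have hall : ∀ j : ℕ, dif (k j 0) (k 0 0) (s (x 0)) = 0 := fun j => by
    have h2 := hlin j
    rw [h1, mul_zero, hΔ] at h2
    exact h2
  have hfin : s (x 0) = 0 := by
    refine quo_ext fun i l => ?_
    obtain ⟨i', hi'⟩ := hksurj 0 i
    obtain ⟨l', hl'⟩ := hksurj 0 l
    rw [← hi', ← hl', B5_dif_sub _ _ (k 0 0)]
    show dif (k i' 0) (k 0 0) (s (x 0)) - dif (k l' 0) (k 0 0) (s (x 0)) = 0
    rw [hall, hall, sub_self]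
  rw [hx] at hfin
  exact hfin

theorem no_sec (hN : 1 ≤ N) {β : E → Fin N → ℂ} {mt : E → E → Equiv.Perm (Fin N)} (h : Match a β mt) {f : E → ℂ}
    (hf : AnalyticAt ℂ f 0) (hD : FoldDisc a f) {O : Set E} (hO : O ∈ 𝓝 (0 : E)) {s : E → Quo N}
    (hs : ZrL.IsSec (fun x y => act (mt x y)) (O \ {x | f x = 0}) s) :
    ∀ᶠ x in 𝓝 (0 : E), x ∉ {x | f x = 0} → s x = 0 := by
  classical
  obtain ⟨v, hv⟩ : ∃ v : E, ∀ i : Fin N, (i : ℕ) = 0 → fderiv ℂ (a i) 0 v ≠ 0 := by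
    obtain ⟨v, hv⟩ : ∃ v : E, fderiv ℂ (a ⟨0, by omega⟩) 0 v ≠ 0 := by
      by_contra hcon
      push Not at hcon
      exact hD.first ⟨0, by omega⟩ rfl (ContinuousLinearMap.ext hcon)
    refine ⟨v, fun i hi => ?_⟩
    have : i = ⟨0, by omega⟩ := Fin.ext hi
    rw [this]
    exact hv
  obtain ⟨ρ, τ, hρ, hτc, hτr, hτd⟩ := eis hN hD.an hD.zero hv
  -- a small ball
  have hc1 : ∀ᶠ x in 𝓝 (0 : E), ∀ i, ∀ᶠ y in 𝓝 x, ContinuousAt (a i) y := by
    rw [eventually_all]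
    intro i
    have h1 := (hD.an i).eventually_analyticAt
    filter_upwards [h1] with x hx
    filter_upwards [hx.eventually_analyticAt] with y hy
    exact hy.continuousAt
  obtain ⟨δ, hδ, hball⟩ := Metric.eventually_nhds_iff_ball.1
    ((hf.eventually_analyticAt.and hO).and (hD.locus.and hc1))
  have hGood : ∀ x ∈ Metric.ball (0 : E) δ, f x ≠ 0 → x ∈ Good a := by
    intro x hx hfx
    obtain ⟨-, h2, h3⟩ := hball x hx
    refine ⟨h3, le_antisymm (rts_card a x) ?_⟩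
    by_contra hcon
    rw [not_le] at hcon
    exact hfx (h2.2 hcon)
  obtain ⟨r, hr, hrρ, hrδ⟩ : ∃ r : ℝ, 0 < r ∧ r < ρ ∧ r ^ N * ‖v‖ < δ := by
    have h1 : Tendsto (fun r : ℝ => r ^ N * ‖v‖) (𝓝[>] 0) (𝓝 0) := by
      have h2 : Continuous fun r : ℝ => r ^ N * ‖v‖ := by fun_prop
      have h3 := h2.tendsto 0
      rw [zero_pow (by omega), zero_mul] at h3
      exact h3.mono_left nhdsWithin_le_nhds
    have h4 := h1.eventually (gt_mem_nhds hδ)
    have h5 : ∀ᶠ r : ℝ in 𝓝[>] 0, r < ρ := nhdsWithin_le_nhds (gt_mem_nhds hρ)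
    obtain ⟨r, ⟨h6, h7⟩, h8⟩ := ((h4.and h5).and self_mem_nhdsWithin).exists
    exact ⟨r, h8, h7, h6⟩
  obtain ⟨A, hA⟩ : ∃ A, A = {x : E | x ∈ Metric.ball (0 : E) δ ∧ f x ≠ 0} := ⟨_, rfl⟩
  have hxball : ∀ θ : ℝ, B5_z N r θ ^ N • v ∈ Metric.ball (0 : E) δ := fun θ => by
    rw [mem_ball_zero_iff, norm_smul, norm_pow, B5_z_norm N hr]
    exact hrδ
  have hxA : ∀ θ : ℝ, B5_z N r θ ^ N • v ∈ A := fun θ => by
    rw [hA]
    refine ⟨hxball θ, fun h0 => ?_⟩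
    obtain ⟨-, h2, -⟩ := hball _ (hxball θ)
    have h3 := h2.1 h0
    have h4 : (Finset.univ.image fun j : Fin N => τ (B5_w N ^ (j : ℕ) * B5_z N r θ)).card = N := by
      rw [Finset.card_image_of_injective, Finset.card_univ, Fintype.card_fin]
      intro j l hjl
      by_contra hne
      have h5 : (j : ℕ) ≠ l := fun h6 => hne (Fin.ext h6)
      exact hτd (B5_z N r θ) (by rw [B5_z_norm N hr]; exact hr) (by rw [B5_z_norm N hr]; exact hrρ)
        j j.2 l l.2 h5 hjl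
    have h5 : ((Finset.univ.image fun j : Fin N => τ (B5_w N ^ (j : ℕ) * B5_z N r θ) : Finset ℂ) : Set ℂ) ⊆
        rts a (B5_z N r θ ^ N • v) := by
      intro t ht
      rw [Finset.coe_image] at ht
      obtain ⟨j, -, rfl⟩ := ht
      have h6 : ‖B5_w N ^ (j : ℕ) * B5_z N r θ‖ = r := by
        rw [norm_mul, norm_pow, B5_w_norm hN, one_pow, one_mul, B5_z_norm N hr]
      have h7 := hτr (B5_w N ^ (j : ℕ) * B5_z N r θ) (by rw [h6]; exact hr) (by rw [h6]; exact hrρ)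
      have h8 : (B5_w N ^ (j : ℕ) * B5_z N r θ) ^ N = B5_z N r θ ^ N := by
        rw [mul_pow, ← pow_mul, mul_comm (j : ℕ) N, pow_mul, B5_w_pow hN, one_pow, one_mul]
      rw [h8] at h7
      exact h7
    have h6 := Set.ncard_le_ncard h5 (rts_fin a _)
    rw [Set.ncard_coe_finset, h4] at h6
    omega
  have hAO : A ⊆ O \ {x | f x = 0} := by
    rw [hA]
    rintro x ⟨hx1, hx2⟩
    obtain ⟨⟨-, h1⟩, -⟩ := hball x hx1
    exact ⟨h1, hx2⟩
  have hAG : A ⊆ Good a := by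
    rw [hA]
    rintro x ⟨hx1, hx2⟩
    exact hGood x hx1 hx2
  have hsA := hs.mono hAO
  have h0 := B5_loop hN h hr hrρ hτc hτr hτd hsA hAG hxA
  have hpre : IsPreconnected A := by
    rw [hA]
    exact ZrL.conn_an Metric.isOpen_ball (convex_ball _ _) fun x hx => (hball x hx).1.1
  filter_upwards [Metric.ball_mem_nhds (0 : E) hδ] with x hx hfx
  refine hsA.zero hpre (hxA 0) h0 ?_
  rw [hA]
  exact ⟨hx, hfx⟩

end ZrD
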