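import Pool.Agent.helper60.ZrD.B6a
import Pool.Agent.helper60.Zr.M31

set_option autoImplicit false

/-!
# ZrD, module B6: the multiplicity of the discriminant is at most `N - 1` (written by helper33)

`D x := ∏ i, ∏ j ≠ i, (r i - r j)` (`exists_disc`, helper64), `r` the roots of `pev a x`. It vanishes on the zeros of `f` near `0`, so `D = h * f`.
On a line `w • v` with `fderiv ℂ (a 0) 0 v ≠ 0`: `‖D (w • v)‖ ≥ c * ‖w‖ ^ (N - 1)` (`disc_lower`) and `‖f (w • v)‖ ≤ C * ‖w‖ ^ k`.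
-/

noncomputable section

namespace ZrD

open Filter Topology Set

section alg

variable {E : Type*} {N : ℕ} {a : Fin N → E → ℂ}

theorem pev_deriv (a : Fin N → E → ℂ) (x : E) (t : ℂ) :
    HasDerivAt (pev a x) ((N : ℂ) * t ^ (N - 1) + ∑ i : Fin N, a i x * (((i : ℕ) : ℂ) * t ^ ((i : ℕ) - 1))) t := by
  unfold pev
  refine (hasDerivAt_pow N t).add (HasDerivAt.fun_sum fun i _ => (hasDerivAt_pow (i : ℕ) t).const_mul (a i x))

theorem prod_deriv (r : Fin N → ℂ) (i : Fin N) :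
    HasDerivAt (fun t : ℂ => ∏ j, (t - r j)) (∏ j ∈ Finset.univ.erase i, (r i - r j)) (r i) := by
  classical
  have h1 : (fun t : ℂ => ∏ j, (t - r j)) = fun t => (t - r i) * ∏ j ∈ Finset.univ.erase i, (t - r j) := by
    funext t
    exact (Finset.mul_prod_erase _ (fun j => t - r j) (Finset.mem_univ i)).symm
  rw [h1]
  have h2 : DifferentiableAt ℂ (fun t : ℂ => ∏ j ∈ Finset.univ.erase i, (t - r j)) (r i) := by
    fun_prop
  have h3 := HasDerivAt.fun_mul ((hasDerivAt_id' (r i)).sub_const (r i)) h2.hasDerivAt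
  simpa using h3

theorem prod_eq {x : E} {r : Fin N → ℂ} (hr : ∀ t, pev a x t = ∏ i, (t - r i)) (i : Fin N) :
    ∏ j ∈ Finset.univ.erase i, (r i - r j) =
      (N : ℂ) * (r i) ^ (N - 1) + ∑ j : Fin N, a j x * (((j : ℕ) : ℂ) * (r i) ^ ((j : ℕ) - 1)) := by
  have h1 := prod_deriv r i
  have h2 : (fun t : ℂ => ∏ j, (t - r j)) = pev a x := funext fun t => (hr t).symm
  rw [h2] at h1
  exact h1.unique (pev_deriv a x (r i))

theorem disc_lower (hN : 1 ≤ N) {x : E} {r : Fin N → ℂ} (hr : ∀ t, pev a x t = ∏ i, (t - r i)) {s K c δ : ℝ}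
    (hs : 0 ≤ s) (hK : 0 ≤ K) (hc : 0 < c) (hδ1 : δ ≤ 1) (hδ : 4 * N ^ 2 * K * δ ≤ c)
    (ha : ∀ i, ‖a i x‖ ≤ K * s) (h0 : c * s ≤ ‖a ⟨0, hN⟩ x‖) (hrδ : ∀ i, ‖r i‖ ≤ δ) :
    (1 / 2) ^ N * (c * s) ^ (N - 1) ≤ ‖∏ i, ∏ j ∈ Finset.univ.erase i, (r i - r j)‖ := by
  have hN1 : (1 : ℝ) ≤ N := by exact_mod_cast hN
  -- the value at zero
  have hz : a ⟨0, hN⟩ x = ∏ i, (0 - r i) := by
    rw [← hr 0]
    unfold pev
    rw [zero_pow (by omega), zero_add, Finset.sum_eq_single ⟨0, hN⟩]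
    · simp
    · intro j _ hj
      have : (j : ℕ) ≠ 0 := fun h => hj (Fin.ext h)
      rw [zero_pow this, mul_zero]
    · intro h
      exact absurd (Finset.mem_univ _) h
  have hz2 : c * s ≤ ∏ i, ‖r i‖ := by
    rw [hz] at h0
    simpa [norm_prod] using h0
  -- each factor
  have hf : ∀ i, (1 / 2) * ‖r i‖ ^ (N - 1) ≤ ‖∏ j ∈ Finset.univ.erase i, (r i - r j)‖ := by
    intro i
    rw [prod_eq hr i]
    set t := r i with ht
    have ht0 : 0 ≤ ‖t‖ := norm_nonneg t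
    have htδ : ‖t‖ ≤ δ := hrδ i
    have ht1 : ‖t‖ ≤ 1 := htδ.trans hδ1
    -- ‖t‖ ^ N is large
    have hroot : t ^ N + ∑ j : Fin N, a j x * t ^ (j : ℕ) = 0 := by
      have h1 := hr t
      rw [Finset.prod_eq_zero (Finset.mem_univ i) (by rw [ht, sub_self])] at h1
      exact h1
    have hsum : ∑ j : Fin N, a j x * t ^ (j : ℕ) = a ⟨0, hN⟩ x + ∑ j ∈ Finset.univ.erase (⟨0, hN⟩ : Fin N), a j x * t ^ (j : ℕ) := by
      rw [← Finset.add_sum_erase _ _ (Finset.mem_univ (⟨0, hN⟩ : Fin N))]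
      simp
    have hS : ‖∑ j ∈ Finset.univ.erase (⟨0, hN⟩ : Fin N), a j x * t ^ (j : ℕ)‖ ≤ N * (K * s * ‖t‖) := by
      refine (norm_sum_le _ _).trans ?_
      have h1 : ∀ j ∈ Finset.univ.erase (⟨0, hN⟩ : Fin N), ‖a j x * t ^ (j : ℕ)‖ ≤ K * s * ‖t‖ := by
        intro j hj
        rw [norm_mul, norm_pow]
        have hj0 : (j : ℕ) ≠ 0 := fun h => (Finset.ne_of_mem_erase hj) (Fin.ext h)
        have h2 : ‖t‖ ^ (j : ℕ) ≤ ‖t‖ := by
          calc ‖t‖ ^ (j : ℕ) ≤ ‖t‖ ^ 1 := pow_le_pow_of_le_one ht0 ht1 (by omega)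
            _ = ‖t‖ := pow_one _
        exact mul_le_mul (ha j) h2 (by positivity) (by positivity)
      refine (Finset.sum_le_sum h1).trans ?_
      rw [Finset.sum_const, nsmul_eq_mul]
      have h3 : ((Finset.univ.erase (⟨0, hN⟩ : Fin N)).card : ℝ) ≤ N := by
        have := Finset.card_erase_le (s := (Finset.univ : Finset (Fin N))) (a := ⟨0, hN⟩)
        rw [Finset.card_univ, Fintype.card_fin] at this
        exact_mod_cast this
      exact mul_le_mul_of_nonneg_right h3 (by positivity)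
    have hTN : c / 2 * s ≤ ‖t‖ ^ N := by
      have h1 : a ⟨0, hN⟩ x = - t ^ N - ∑ j ∈ Finset.univ.erase (⟨0, hN⟩ : Fin N), a j x * t ^ (j : ℕ) := by
        rw [hsum] at hroot
        linear_combination hroot
      have h2 : ‖a ⟨0, hN⟩ x‖ ≤ ‖t‖ ^ N + N * (K * s * ‖t‖) := by
        rw [h1]
        refine (norm_sub_le _ _).trans ?_
        rw [norm_neg, norm_pow]
        exact add_le_add le_rfl hS
      have h3 : N * (K * s * ‖t‖) ≤ c / 2 * s := by
        have h4 : N * K * ‖t‖ ≤ c / 2 := by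
          have h5 : N * K * ‖t‖ ≤ N ^ 2 * K * δ := by
            have h6 : (N : ℝ) ≤ N ^ 2 := by nlinarith
            calc N * K * ‖t‖ ≤ N ^ 2 * K * ‖t‖ := by gcongr
              _ ≤ N ^ 2 * K * δ := by gcongr
          nlinarith
        calc N * (K * s * ‖t‖) = (N * K * ‖t‖) * s := by ring
          _ ≤ c / 2 * s := mul_le_mul_of_nonneg_right h4 hs
      nlinarith
    -- the sum in the derivative
    have hS2 : ‖∑ j : Fin N, a j x * (((j : ℕ) : ℂ) * t ^ ((j : ℕ) - 1))‖ ≤ (1 / 2) * ‖t‖ ^ (N - 1) := by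
      refine (norm_sum_le _ _).trans ?_
      have h1 : ∀ j ∈ (Finset.univ : Finset (Fin N)), ‖a j x * (((j : ℕ) : ℂ) * t ^ ((j : ℕ) - 1))‖ ≤ K * s * N := by
        intro j _
        rw [norm_mul, norm_mul, norm_pow, Complex.norm_natCast]
        have h2 : ‖t‖ ^ ((j : ℕ) - 1) ≤ 1 := pow_le_one₀ ht0 ht1
        have h3 : ((j : ℕ) : ℝ) ≤ N := by exact_mod_cast j.2.le
        calc ‖a j x‖ * (((j : ℕ) : ℝ) * ‖t‖ ^ ((j : ℕ) - 1)) ≤ (K * s) * (N * 1) := by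
              refine mul_le_mul (ha j) (mul_le_mul h3 h2 (by positivity) (by positivity)) (by positivity) (by positivity)
          _ = K * s * N := by ring
      refine (Finset.sum_le_sum h1).trans ?_
      rw [Finset.sum_const, nsmul_eq_mul, Finset.card_univ, Fintype.card_fin]
      have h4 : s ≤ 2 / c * ‖t‖ ^ N := by
        rw [div_mul_eq_mul_div, le_div_iff₀ hc]
        nlinarith
      have h5 : ‖t‖ ^ N = ‖t‖ ^ (N - 1) * ‖t‖ := by
        conv_lhs => rw [show N = (N - 1) + 1 by omega]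
        rw [pow_succ]
      have h6 : N ^ 2 * K * (2 / c) * ‖t‖ ≤ 1 / 2 := by
        have h7 : N ^ 2 * K * ‖t‖ ≤ c / 4 := by
          have : N ^ 2 * K * ‖t‖ ≤ N ^ 2 * K * δ := by gcongr
          nlinarith
        calc N ^ 2 * K * (2 / c) * ‖t‖ = (N ^ 2 * K * ‖t‖) * (2 / c) := by ring
          _ ≤ (c / 4) * (2 / c) := by gcongr
          _ = 1 / 2 := by field_simp; norm_num
      calc (N : ℝ) * (K * s * N) = N ^ 2 * K * s := by ring
        _ ≤ N ^ 2 * K * (2 / c * ‖t‖ ^ N) := by gcongr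
        _ = (N ^ 2 * K * (2 / c) * ‖t‖) * ‖t‖ ^ (N - 1) := by rw [h5]; ring
        _ ≤ (1 / 2) * ‖t‖ ^ (N - 1) := by gcongr
    have h8 : ‖(N : ℂ) * t ^ (N - 1)‖ = N * ‖t‖ ^ (N - 1) := by
      rw [norm_mul, norm_pow, Complex.norm_natCast]
    have h9 := norm_sub_norm_le ((N : ℂ) * t ^ (N - 1)) (-∑ j : Fin N, a j x * (((j : ℕ) : ℂ) * t ^ ((j : ℕ) - 1)))
    rw [norm_neg, sub_neg_eq_add, h8] at h9
    have h10 : 0 ≤ ‖t‖ ^ (N - 1) := by positivity
    nlinarith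
  rw [norm_prod]
  have hfin : ∏ i : Fin N, ((1 / 2 : ℝ) * ‖r i‖ ^ (N - 1)) ≤ ∏ i : Fin N, ‖∏ j ∈ Finset.univ.erase i, (r i - r j)‖ :=
    Finset.prod_le_prod (fun i _ => by positivity) fun i _ => hf i
  refine le_trans ?_ hfin
  rw [Finset.prod_mul_distrib, Finset.prod_const, Finset.card_univ, Fintype.card_fin, Finset.prod_pow]
  gcongr

/-- the discriminant vanishes where there are fewer than `N` different roots -/
theorem disc_zero {x : E} {r : Fin N → ℂ} (hr : ∀ t, pev a x t = ∏ i, (t - r i)) (h : (rts a x).ncard < N) :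
    ∏ i, ∏ j ∈ Finset.univ.erase i, (r i - r j) = 0 := by
  classical
  have h1 : ¬ Function.Injective r := by
    intro hi
    have h2 : rts a x = Set.range r := by
      ext t
      rw [rts, Set.mem_ofPred_eq, hr t, Finset.prod_eq_zero_iff, Set.mem_range]
      constructor
      · rintro ⟨i, _, h3⟩
        exact ⟨i, (sub_eq_zero.1 h3).symm⟩
      · rintro ⟨i, h3⟩
        exact ⟨i, Finset.mem_univ i, sub_eq_zero.2 h3.symm⟩
    rw [h2, ← Set.image_univ, Set.ncard_image_of_injective _ hi, Set.ncard_univ, Nat.card_eq_fintype_card, Fintype.card_fin] at h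
    exact lt_irrefl _ h
  rw [Function.Injective] at h1
  push Not at h1
  obtain ⟨i, j, hij, hne⟩ := h1
  refine Finset.prod_eq_zero (Finset.mem_univ i) ?_
  refine Finset.prod_eq_zero (Finset.mem_erase.2 ⟨fun h => hne h.symm, Finset.mem_univ j⟩) ?_
  rw [hij, sub_self]

end alg

variable {E : Type*} [NormedAddCommGroup E] [NormedSpace ℂ E] [FiniteDimensional ℂ E] {N : ℕ} {a : Fin N → E → ℂ}

theorem mult_le (hN : 1 ≤ N) {f : E → ℂ} (hf : Zr.RedGerm f) (hD : FoldDisc a f) {k : ℕ} (hk : Zr.Mult f k) :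
    k ≤ N - 1 := by
  classical
  obtain ⟨D, hDan, hDr⟩ := exists_disc hD.an
  obtain ⟨P, hP⟩ := hk.lead (hf.red hk.ne)
  obtain ⟨C, hC, ρ, hρ, happ⟩ := hP.approx
  -- `D = h * f`
  have hvan : ∀ᶠ z in 𝓝 (0 : E), f z = 0 → D z = 0 := by
    filter_upwards [hD.locus] with z hz hfz
    obtain ⟨r, hr⟩ := pev_prod a z
    rw [hDr z r hr]
    exact disc_zero hr (hz.1 hfz)
  obtain ⟨h, han, hh⟩ := hf.2.2 D hDan hvan
  -- the direction
  have hfd : fderiv ℂ (a ⟨0, hN⟩) 0 ≠ 0 := hD.first ⟨0, hN⟩ rfl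
  obtain ⟨v, hv⟩ : ∃ v, fderiv ℂ (a ⟨0, hN⟩) 0 v ≠ 0 := by
    by_contra hno
    push Not at hno
    exact hfd (ContinuousLinearMap.ext hno)
  set c0 : ℂ := fderiv ℂ (a ⟨0, hN⟩) 0 v with hc0
  set c : ℝ := ‖c0‖ / 2 with hc
  have hc0p : 0 < ‖c0‖ := norm_pos_iff.2 hv
  have hcpos : 0 < c := by positivity
  -- the line
  let L : ℝ → E := fun s => (s : ℂ) • v
  have hL : Tendsto L (𝓝 0) (𝓝 0) := by
    have : Continuous L := by fun_prop
    have h1 := this.tendsto 0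
    simpa [L] using h1
  -- coefficients along the line
  have hder : ∀ i, HasDerivAt (fun w : ℂ => a i (w • v)) (fderiv ℂ (a i) 0 v) 0 := by
    intro i
    have h1 : HasFDerivAt (a i) (fderiv ℂ (a i) 0) ((0 : ℂ) • v) := by
      rw [zero_smul]
      exact (hD.an i).differentiableAt.hasFDerivAt
    have h2 : HasDerivAt (fun w : ℂ => w • v) v 0 := by
      have := (hasDerivAt_id' (0 : ℂ)).smul_const v
      simpa using this
    exact h1.comp_hasDerivAt (0 : ℂ) h2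
  have hlittle : ∀ i, ∀ ε : ℝ, 0 < ε → ∀ᶠ s : ℝ in 𝓝 0, ‖a i (L s) - (s : ℂ) * fderiv ℂ (a i) 0 v‖ ≤ ε * |s| := by
    intro i ε hε
    have h1 := (hasDerivAt_iff_isLittleO.1 (hder i)).def hε
    have h2 : Tendsto (fun s : ℝ => (s : ℂ)) (𝓝 0) (𝓝 (0 : ℂ)) := by
      have := Complex.continuous_ofReal.tendsto 0
      simpa using this
    filter_upwards [h2.eventually h1] with s hs
    rw [sub_zero, zero_smul, hD.zero i, sub_zero, smul_eq_mul, Complex.norm_real, Real.norm_eq_abs] at hs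
    exact hs
  -- bounds of the coefficients
  let K : ℝ := 1 + ∑ i, ‖fderiv ℂ (a i) 0 v‖
  have hK0 : 0 ≤ K := by positivity
  have hKb : ∀ᶠ s : ℝ in 𝓝[>] 0, ∀ i, ‖a i (L s)‖ ≤ K * s := by
    rw [eventually_all]
    intro i
    filter_upwards [mem_nhdsWithin_of_mem_nhds (hlittle i 1 one_pos), self_mem_nhdsWithin] with s hs hs0
    have hs0' : (0 : ℝ) < s := hs0
    rw [abs_of_pos hs0'] at hs
    have h1 : ‖a i (L s)‖ ≤ ‖a i (L s) - (s : ℂ) * fderiv ℂ (a i) 0 v‖ + ‖(s : ℂ) * fderiv ℂ (a i) 0 v‖ := by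
      have := norm_add_le (a i (L s) - (s : ℂ) * fderiv ℂ (a i) 0 v) ((s : ℂ) * fderiv ℂ (a i) 0 v)
      simpa using this
    rw [norm_mul, Complex.norm_real, Real.norm_eq_abs, abs_of_pos hs0'] at h1
    have h2 : ‖fderiv ℂ (a i) 0 v‖ ≤ ∑ i, ‖fderiv ℂ (a i) 0 v‖ :=
      Finset.single_le_sum (f := fun i => ‖fderiv ℂ (a i) 0 v‖) (fun i _ => norm_nonneg _) (Finset.mem_univ i)
    have h3 : s * ‖fderiv ℂ (a i) 0 v‖ ≤ s * ∑ i, ‖fderiv ℂ (a i) 0 v‖ := mul_le_mul_of_nonneg_left h2 hs0'.le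
    calc ‖a i (L s)‖ ≤ 1 * s + s * ∑ i, ‖fderiv ℂ (a i) 0 v‖ := by linarith
      _ = K * s := by simp only [K]; ring
  have hlow : ∀ᶠ s : ℝ in 𝓝[>] 0, c * s ≤ ‖a ⟨0, hN⟩ (L s)‖ := by
    filter_upwards [mem_nhdsWithin_of_mem_nhds (hlittle ⟨0, hN⟩ c hcpos), self_mem_nhdsWithin] with s hs hs0
    have hs0' : (0 : ℝ) < s := hs0
    rw [abs_of_pos hs0'] at hs
    have h1 : ‖(s : ℂ) * c0‖ ≤ ‖(s : ℂ) * c0 - a ⟨0, hN⟩ (L s)‖ + ‖a ⟨0, hN⟩ (L s)‖ := by
      have := norm_add_le ((s : ℂ) * c0 - a ⟨0, hN⟩ (L s)) (a ⟨0, hN⟩ (L s))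
      simpa using this
    rw [norm_mul, Complex.norm_real, Real.norm_eq_abs, abs_of_pos hs0', norm_sub_rev] at h1
    have h2 : s * ‖c0‖ = 2 * c * s := by rw [hc]; ring
    linarith
  -- the roots tend to zero
  obtain ⟨δ, hδ0, hδ1, hδ⟩ : ∃ δ : ℝ, 0 < δ ∧ δ ≤ 1 ∧ 4 * N ^ 2 * K * δ ≤ c := by
    have hden : 0 < 4 * (N : ℝ) ^ 2 * K + 1 := by positivity
    refine ⟨min 1 (c / (4 * N ^ 2 * K + 1)), lt_min one_pos (by positivity), min_le_left _ _, ?_⟩
    calc 4 * (N : ℝ) ^ 2 * K * min 1 (c / (4 * N ^ 2 * K + 1)) ≤ 4 * (N : ℝ) ^ 2 * K * (c / (4 * N ^ 2 * K + 1)) :=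
          mul_le_mul_of_nonneg_left (min_le_right _ _) (by positivity)
      _ ≤ (4 * (N : ℝ) ^ 2 * K + 1) * (c / (4 * N ^ 2 * K + 1)) :=
          mul_le_mul_of_nonneg_right (by linarith) (by positivity)
      _ = c := by field_simp
  have hroots : ∀ᶠ x in 𝓝 (0 : E), ∀ t ∈ rts a x, ‖t‖ ≤ δ := by
    filter_upwards [far_root (a := a) (fun i => (hD.an i).continuousAt) hδ0] with x hx t ht
    obtain ⟨τ, hτ, h1⟩ := hx t ht
    have h2 : τ = 0 := by
      have h3 : τ ^ N + ∑ i : Fin N, a i 0 * τ ^ (i : ℕ) = 0 := hτ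
      simp only [hD.zero, zero_mul, Finset.sum_const_zero, add_zero] at h3
      exact pow_eq_zero_iff (by omega) |>.1 h3
    rw [h2, sub_zero] at h1
    exact h1.le
  -- lower bound of `D`
  have hDlow : ∀ᶠ s : ℝ in 𝓝[>] 0, (1 / 2) ^ N * (c * s) ^ (N - 1) ≤ ‖D (L s)‖ := by
    filter_upwards [hKb, hlow, mem_nhdsWithin_of_mem_nhds (hL.eventually hroots), self_mem_nhdsWithin] with s h1 h2 h3 hs0
    have hs0' : (0 : ℝ) < s := hs0
    obtain ⟨r, hr⟩ := pev_prod a (L s)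
    rw [hDr _ r hr]
    refine disc_lower hN hr hs0'.le hK0 hcpos hδ1 hδ h1 h2 fun i => h3 (r i) ?_
    show pev a (L s) (r i) = 0
    rw [hr (r i)]
    exact Finset.prod_eq_zero (Finset.mem_univ i) (sub_self _)
  -- upper bound of `D`
  have hflow : ∀ᶠ s : ℝ in 𝓝[>] 0, ‖f (L s)‖ ≤ (‖P v‖ + C * ‖v‖ ^ (k + 1)) * s ^ k := by
    have hball : ∀ᶠ x in 𝓝 (0 : E), ‖x‖ < ρ := by
      filter_upwards [Metric.ball_mem_nhds (0 : E) hρ] with x hx
      simpa using hx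
    filter_upwards [mem_nhdsWithin_of_mem_nhds (hL.eventually hball), self_mem_nhdsWithin,
      mem_nhdsWithin_of_mem_nhds (gt_mem_nhds (show (0 : ℝ) < 1 by norm_num))] with s h1 hs0 hs1
    have hs0' : (0 : ℝ) < s := hs0
    have hs1' : s < 1 := hs1
    have h2 := happ (L s) h1
    have h3 : ‖P (L s)‖ = s ^ k * ‖P v‖ := by
      simp only [L]
      rw [hP.hom, norm_mul, norm_pow, Complex.norm_real, Real.norm_eq_abs, abs_of_pos hs0']
    have h4 : ‖L s‖ = s * ‖v‖ := by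
      simp only [L]
      rw [norm_smul, Complex.norm_real, Real.norm_eq_abs, abs_of_pos hs0']
    have h5 : ‖f (L s)‖ ≤ ‖f (L s) - P (L s)‖ + ‖P (L s)‖ := by
      have := norm_add_le (f (L s) - P (L s)) (P (L s))
      simpa using this
    have h6 : s ^ (k + 1) ≤ s ^ k := pow_le_pow_of_le_one hs0'.le hs1'.le (Nat.le_succ k)
    rw [h4, mul_pow] at h2
    calc ‖f (L s)‖ ≤ C * (s ^ (k + 1) * ‖v‖ ^ (k + 1)) + s ^ k * ‖P v‖ := by rw [← h3]; linarith
      _ ≤ C * (s ^ k * ‖v‖ ^ (k + 1)) + s ^ k * ‖P v‖ := by gcongr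
      _ = (‖P v‖ + C * ‖v‖ ^ (k + 1)) * s ^ k := by ring
  have hhb : ∀ᶠ x in 𝓝 (0 : E), ‖h x‖ ≤ ‖h 0‖ + 1 := by
    have h1 := han.continuousAt.norm
    have h2 : ∀ᶠ x in 𝓝 (0 : E), ‖h x‖ < ‖h 0‖ + 1 := h1.eventually (gt_mem_nhds (by linarith))
    filter_upwards [h2] with x hx
    exact hx.le
  have hDup : ∀ᶠ s : ℝ in 𝓝[>] 0, ‖D (L s)‖ ≤ (‖h 0‖ + 1) * (‖P v‖ + C * ‖v‖ ^ (k + 1)) * s ^ k := by
    filter_upwards [hflow, mem_nhdsWithin_of_mem_nhds (hL.eventually hh), mem_nhdsWithin_of_mem_nhds (hL.eventually hhb),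
      self_mem_nhdsWithin] with s h1 h2 h3 hs0
    rw [h2, norm_mul, mul_assoc]
    exact mul_le_mul h3 h1 (norm_nonneg _) (by positivity)
  -- the conclusion
  by_contra hcon
  have hkN : N ≤ k := by omega
  set A : ℝ := (1 / 2) ^ N * c ^ (N - 1) with hA
  set B : ℝ := (‖h 0‖ + 1) * (‖P v‖ + C * ‖v‖ ^ (k + 1)) with hB
  have hApos : 0 < A := by positivity
  have hBpos : 0 ≤ B := by positivity
  have hfin : ∀ᶠ s : ℝ in 𝓝[>] 0, A ≤ B * s := by
    filter_upwards [hDlow, hDup, self_mem_nhdsWithin,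
      mem_nhdsWithin_of_mem_nhds (gt_mem_nhds (show (0 : ℝ) < 1 by norm_num))] with s h1 h2 hs0 hs1
    have hs0' : (0 : ℝ) < s := hs0
    have hs1' : s < 1 := hs1
    have h3 : A * s ^ (N - 1) ≤ B * s ^ k := by
      have h4 := h1.trans h2
      rw [mul_pow] at h4
      calc A * s ^ (N - 1) = (1 / 2) ^ N * (c ^ (N - 1) * s ^ (N - 1)) := by rw [hA]; ring
        _ ≤ B * s ^ k := h4
    have h5 : B * s ^ k ≤ B * s * s ^ (N - 1) := by
      have h6 : s ^ k ≤ s ^ N := pow_le_pow_of_le_one hs0'.le hs1'.le hkN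
      have h7 : s ^ N = s * s ^ (N - 1) := by
        conv_lhs => rw [show N = (N - 1) + 1 by omega]
        rw [pow_succ, mul_comm]
      calc B * s ^ k ≤ B * s ^ N := mul_le_mul_of_nonneg_left h6 hBpos
        _ = B * s * s ^ (N - 1) := by rw [h7]; ring
    exact le_of_mul_le_mul_right (h3.trans h5) (by positivity)
  have hlim : Tendsto (fun s : ℝ => B * s) (𝓝[>] 0) (𝓝 0) := by
    have h1 : Tendsto (fun s : ℝ => B * s) (𝓝 0) (𝓝 (B * 0)) := (continuous_const.mul continuous_id).tendsto 0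
    rw [mul_zero] at h1
    exact h1.mono_left nhdsWithin_le_nhds
  have hle : A ≤ 0 := ge_of_tendsto hlim hfin
  linarith

end ZrD
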