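import Pool.Agent.helper60.ZrD.B1

set_option autoImplicit false

/-!
# ZrD, module B6a: the discriminant as an analytic function (helper64)
-/

noncomputable section

namespace ZrD

open Filter Topology Set

/-- the monic polynomial of degree `N` with the coefficients `c i` -/
def ply {R : Type*} [CommRing R] {N : ℕ} (c : Fin N → R) : Polynomial R :=
  Polynomial.X ^ N + ∑ i : Fin N, Polynomial.C (c i) * Polynomial.X ^ (i : ℕ)

lemma ply_map {R S : Type*} [CommRing R] [CommRing S] {N : ℕ} (φ : R →+* S) (c : Fin N → R) :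
    (ply c).map φ = ply (fun i => φ (c i)) := by
  unfold ply
  rw [Polynomial.map_add, Polynomial.map_pow, Polynomial.map_X, Polynomial.map_sum]
  congr 1
  apply Finset.sum_congr rfl
  intro i _
  rw [Polynomial.map_mul, Polynomial.map_C, Polynomial.map_pow, Polynomial.map_X]

lemma ply_monic {R : Type*} [CommRing R] {N : ℕ} (c : Fin N → R) : (ply c).Monic :=
  Polynomial.monic_X_pow_add (Polynomial.degree_sum_fin_lt c)

lemma ply_deg {R : Type*} [CommRing R] [Nontrivial R] {N : ℕ} (c : Fin N → R) : (ply c).natDegree = N := by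
  unfold ply
  rw [Polynomial.natDegree_add_eq_left_of_degree_lt, Polynomial.natDegree_X_pow]
  rw [Polynomial.degree_X_pow]
  exact Polynomial.degree_sum_fin_lt c

lemma ply_eval {R : Type*} [CommRing R] {N : ℕ} (c : Fin N → R) (t : R) :
    (ply c).eval t = t ^ N + ∑ i : Fin N, c i * t ^ (i : ℕ) := by
  unfold ply
  rw [Polynomial.eval_add, Polynomial.eval_pow, Polynomial.eval_X, Polynomial.eval_finsetSum]
  congr 1
  apply Finset.sum_congr rfl
  intro i _
  rw [Polynomial.eval_mul, Polynomial.eval_C, Polynomial.eval_pow, Polynomial.eval_X]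

lemma ply_deriv {R : Type*} [CommRing R] {N : ℕ} (c : Fin N → R) (t : R) :
    (Polynomial.derivative (ply c)).eval t = N * t ^ (N - 1) + ∑ i : Fin N, (i : ℕ) * (c i * t ^ ((i : ℕ) - 1)) := by
  unfold ply
  rw [Polynomial.derivative_add, Polynomial.derivative_X_pow, Polynomial.derivative_sum, Polynomial.eval_add,
    Polynomial.eval_finsetSum]
  congr 1
  · simp
  · apply Finset.sum_congr rfl
    intro i _
    rw [Polynomial.derivative_C_mul, Polynomial.derivative_X_pow]
    simp
    ring

/-- the generic discriminant (a resultant) -/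
def dsc (N : ℕ) : MvPolynomial (Fin N) ℂ :=
  Polynomial.resultant (ply (fun i : Fin N => (MvPolynomial.X i : MvPolynomial (Fin N) ℂ)))
    (Polynomial.derivative (ply (fun i : Fin N => (MvPolynomial.X i : MvPolynomial (Fin N) ℂ)))) N (N - 1)

lemma dsc_eval {N : ℕ} (c r : Fin N → ℂ) (h : ∀ t, (ply c).eval t = ∏ i, (t - r i)) :
    MvPolynomial.aeval c (dsc N) = ∏ i, (Polynomial.derivative (ply c)).eval (r i) := by
  have h1 : MvPolynomial.aeval c (dsc N) = Polynomial.resultant (ply c) (Polynomial.derivative (ply c)) N (N - 1) := by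
    have h2 := Polynomial.resultant_map_map (ply (fun i : Fin N => (MvPolynomial.X i : MvPolynomial (Fin N) ℂ)))
      (Polynomial.derivative (ply (fun i : Fin N => (MvPolynomial.X i : MvPolynomial (Fin N) ℂ)))) N (N - 1)
      ((MvPolynomial.aeval c : MvPolynomial (Fin N) ℂ →ₐ[ℂ] ℂ) : MvPolynomial (Fin N) ℂ →+* ℂ)
    rw [← Polynomial.derivative_map, ply_map] at h2
    have h3 : (fun i => ((MvPolynomial.aeval c : MvPolynomial (Fin N) ℂ →ₐ[ℂ] ℂ) : MvPolynomial (Fin N) ℂ →+* ℂ)
        (MvPolynomial.X i)) = c := by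
      funext i
      simp
    rw [h3] at h2
    rw [h2]
    rfl
  have h4 : ply c = ∏ i, (Polynomial.X - Polynomial.C (r i)) := by
    apply Polynomial.funext
    intro t
    rw [h t, Polynomial.eval_prod]
    simp
  have h5 : (ply c).roots = Finset.univ.val.map r := by
    have h7 : (∏ i, (Polynomial.X - Polynomial.C (r i))) = ((Finset.univ.val.map r).map fun a => Polynomial.X - Polynomial.C a).prod := by
      rw [Multiset.map_map]
      rfl
    rw [h4, h7, Polynomial.roots_multiset_prod_X_sub_C]
  rw [h1]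
  have h6 := Polynomial.resultant_eq_prod_eval (ply c) (Polynomial.derivative (ply c)) (N - 1)
    (by
      have := Polynomial.natDegree_derivative_le (ply c)
      rwa [ply_deg] at this) (IsAlgClosed.splits _)
  rw [ply_deg, (ply_monic c).leadingCoeff, one_pow, one_mul, h5, Multiset.map_map] at h6
  rw [h6]
  rfl

lemma dbl_root {N : ℕ} (c r : Fin N → ℂ) (h : ∀ t, (ply c).eval t = ∏ i, (t - r i)) {i j : Fin N} (hij : i ≠ j)
    (he : r i = r j) : (Polynomial.derivative (ply c)).eval (r i) = 0 := by
  have h4 : ply c = (Polynomial.X - Polynomial.C (r i)) * ((Polynomial.X - Polynomial.C (r j)) *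
      ∏ k ∈ (Finset.univ.erase i).erase j, (Polynomial.X - Polynomial.C (r k))) := by
    rw [Finset.mul_prod_erase _ (fun k => Polynomial.X - Polynomial.C (r k))
      (Finset.mem_erase.2 ⟨hij.symm, Finset.mem_univ j⟩),
      Finset.mul_prod_erase _ (fun k => Polynomial.X - Polynomial.C (r k)) (Finset.mem_univ i)]
    apply Polynomial.funext
    intro t
    rw [h t, Polynomial.eval_prod]
    simp
  rw [h4, he]
  simp [Polynomial.derivative_mul]

variable {E : Type*} [NormedAddCommGroup E] [NormedSpace ℂ E] {N : ℕ} {a : Fin N → E → ℂ}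

/-- the discriminant -/
theorem exists_disc_deriv (ha : ∀ i, AnalyticAt ℂ (a i) 0) : ∃ D : E → ℂ, AnalyticAt ℂ D 0 ∧
    (∀ (x : E) (r : Fin N → ℂ), (∀ t, pev a x t = ∏ i, (t - r i)) →
      D x = ∏ i, ((N : ℂ) * r i ^ (N - 1) + ∑ j : Fin N, ((j : ℕ) : ℂ) * (a j x * r i ^ ((j : ℕ) - 1)))) ∧
    (∀ x : E, (rts a x).ncard < N → D x = 0) := by
  have h1 : ∀ (x : E) (t : ℂ), (ply (fun i => a i x)).eval t = pev a x t := fun x t => ply_eval _ t
  refine ⟨fun x => MvPolynomial.aeval (fun i => a i x) (dsc N), AnalyticAt.aeval_mvPolynomial ha _, ?_, ?_⟩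
  · intro x r hr
    have h2 := dsc_eval (fun i => a i x) r (fun t => (h1 x t).trans (hr t))
    show MvPolynomial.aeval (fun i => a i x) (dsc N) = _
    rw [h2]
    apply Finset.prod_congr rfl
    intro i _
    exact ply_deriv _ _
  · intro x hx
    obtain ⟨r, hr⟩ := pev_prod a x
    have h2 := dsc_eval (fun i => a i x) r (fun t => (h1 x t).trans (hr t))
    show MvPolynomial.aeval (fun i => a i x) (dsc N) = 0
    rw [h2]
    have h3 : ¬ Function.Injective r := by
      intro hinj
      have h4 : rts a x = range r := by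
        ext t
        show pev a x t = 0 ↔ _
        rw [hr t, Finset.prod_eq_zero_iff]
        constructor
        · rintro ⟨i, -, hi⟩
          exact ⟨i, (sub_eq_zero.1 hi).symm⟩
        · rintro ⟨i, rfl⟩
          exact ⟨i, Finset.mem_univ i, sub_self _⟩
      rw [h4, ← image_univ, ncard_image_of_injective _ hinj, ncard_univ, Nat.card_fin] at hx
      exact lt_irrefl _ hx
    rw [Function.Injective] at h3
    push Not at h3
    obtain ⟨i, j, hij, hne⟩ := h3
    apply Finset.prod_eq_zero (Finset.mem_univ i)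
    exact dbl_root _ r (fun t => (h1 x t).trans (hr t)) hne hij

omit [NormedAddCommGroup E] [NormedSpace ℂ E] in
/-- the derivative at a root -/
theorem prod_erase_eq {x : E} {r : Fin N → ℂ} (h : ∀ t, pev a x t = ∏ i, (t - r i)) (i : Fin N) :
    ∏ j ∈ Finset.univ.erase i, (r i - r j) =
      (N : ℂ) * r i ^ (N - 1) + ∑ j : Fin N, ((j : ℕ) : ℂ) * (a j x * r i ^ ((j : ℕ) - 1)) := by
  have h1 : ∀ t : ℂ, (ply (fun i => a i x)).eval t = pev a x t := fun t => ply_eval _ t
  have h4 : ply (fun i => a i x) = (Polynomial.X - Polynomial.C (r i)) *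
      ∏ k ∈ Finset.univ.erase i, (Polynomial.X - Polynomial.C (r k)) := by
    rw [Finset.mul_prod_erase _ (fun k => Polynomial.X - Polynomial.C (r k)) (Finset.mem_univ i)]
    apply Polynomial.funext
    intro t
    rw [h1 t, h t, Polynomial.eval_prod]
    simp
  rw [← ply_deriv (fun i => a i x) (r i), h4]
  simp [Polynomial.derivative_mul, Polynomial.eval_prod]

/-- the discriminant, as a product of differences -/
theorem exists_disc (ha : ∀ i, AnalyticAt ℂ (a i) 0) : ∃ D : E → ℂ, AnalyticAt ℂ D 0 ∧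
    ∀ (x : E) (r : Fin N → ℂ), (∀ t, pev a x t = ∏ i, (t - r i)) →
      D x = ∏ i, ∏ j ∈ Finset.univ.erase i, (r i - r j) := by
  obtain ⟨D, h1, h2, -⟩ := exists_disc_deriv ha
  refine ⟨D, h1, fun x r hr => ?_⟩
  rw [h2 x r hr]
  apply Finset.prod_congr rfl
  intro i _
  exact (prod_erase_eq hr i).symm

end ZrD
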