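import Pool.Agent.helper60.ZrD.B4
import Pool.Agent.helper60.ZrD.B5
import Pool.Agent.helper60.ZrD.B6
import Pool.Agent.helper60.ZrL.FA

set_option autoImplicit false

/-!
# ZrD, module B7: final forms for discriminants (written by helper60)
-/

noncomputable section

namespace ZrD

open Filter Topology Set

variable {E : Type*} [NormedAddCommGroup E] [NormedSpace ℂ E] {N : ℕ} {a : Fin N → E → ℂ}

theorem B7_cont {f : E → ℂ} (hD : FoldDisc a f) : ∀ᶠ x in 𝓝 (0 : E), ∀ i, ∀ᶠ y in 𝓝 x, ContinuousAt (a i) y := by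
  rw [eventually_all]
  intro i
  filter_upwards [(hD.an i).eventually_analyticAt] with x hx
  filter_upwards [hx.eventually_analyticAt] with y hy
  exact hy.continuousAt

theorem B7_good {x : E} (h1 : ∀ i, ∀ᶠ y in 𝓝 x, ContinuousAt (a i) y) (h2 : ¬ (rts a x).ncard < N) : x ∈ Good a :=
  ⟨h1, le_antisymm (rts_card a x) (not_lt.1 h2)⟩

variable [FiniteDimensional ℂ E]

theorem has_sys (hN : 1 ≤ N) {f : E → ℂ} (hf : AnalyticAt ℂ f 0) (hD : FoldDisc a f) :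
    ZrL.HasSys ℂ (Quo N) {x | f x = 0} 1 := by
  obtain ⟨β, mt, hM⟩ := exists_match a
  refine ⟨{x | (∀ i, ∀ᶠ y in 𝓝 x, ContinuousAt (a i) y) ∧ (f x = 0 ↔ (rts a x).ncard < N)}, fun x y => act (mt x y),
    (B7_cont hD).and hD.locus, (locsys hM).mono ?_, ?_, fun O hO s hs => no_sec hN hM hf hD hO hs⟩
  · rintro x ⟨⟨h1, h2⟩, h3⟩
    exact B7_good h1 (fun h4 => h3 (h2.2 h4))
  · filter_upwards [hD.fold, (B7_cont hD).eventually_nhds, hD.locus.eventually_nhds.eventually_nhds] with x h1 h2 h3 hx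
    have h4 := mem_closure_iff_frequently.1 (h1 hx)
    rw [mem_closure_iff_frequently]
    refine (h4.and_eventually (h2.and h3)).mono ?_
    rintro q ⟨⟨h5, h6⟩, h7, h8⟩
    exact ⟨h5, defect_one hM h7 h8 h6⟩

omit [FiniteDimensional ℂ E] in
theorem B7_ne (hN : 1 ≤ N) {f : E → ℂ} (hD : FoldDisc a f) : ¬ ∀ᶠ x in 𝓝 (0 : E), f x = 0 := by
  classical
  intro hf0
  obtain ⟨v, hv⟩ : ∃ v : E, ∀ i : Fin N, (i : ℕ) = 0 → fderiv ℂ (a i) 0 v ≠ 0 := by
    obtain ⟨v, hv⟩ : ∃ v : E, fderiv ℂ (a ⟨0, by omega⟩) 0 v ≠ 0 := by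
      by_contra hcon
      push Not at hcon
      exact hD.first ⟨0, by omega⟩ rfl (ContinuousLinearMap.ext hcon)
    refine ⟨v, fun i hi => ?_⟩
    have : i = ⟨0, by omega⟩ := Fin.ext hi
    rw [this]
    exact hv
  obtain ⟨ρ, τ, hρ, -, hτr, hτd⟩ := eis hN hD.an hD.zero hv
  have hc : Tendsto (fun ζ : ℂ => ζ ^ N • v) (𝓝 0) (𝓝 0) := by
    have h1 : Continuous fun ζ : ℂ => ζ ^ N • v := by fun_prop
    have h2 := h1.tendsto 0
    rwa [zero_pow (by omega), zero_smul] at h2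
  have h1 := hc.eventually (hf0.and hD.locus)
  have h2 : ∀ᶠ ζ in 𝓝 (0 : ℂ), ‖ζ‖ < ρ := by
    filter_upwards [Metric.ball_mem_nhds (0 : ℂ) hρ] with ζ hζ
    simpa using hζ
  have h3 : ∀ᶠ ζ in 𝓝[≠] (0 : ℂ), ζ ≠ 0 := self_mem_nhdsWithin
  obtain ⟨ζ, ⟨⟨h4, h5⟩, h6⟩, h7⟩ := (((h1.and h2).filter_mono nhdsWithin_le_nhds).and h3).exists
  have h8 := h5.1 h4
  obtain ⟨ω, hω⟩ : ∃ ω, ω = Complex.exp (2 * Real.pi * Complex.I / N) := ⟨_, rfl⟩
  have hωN : ω ^ N = 1 := by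
    rw [hω]
    exact (Complex.isPrimitiveRoot_exp N (by omega)).pow_eq_one
  have hω1 : ‖ω‖ = 1 := by
    rw [hω]
    exact Complex.norm_eq_one_of_pow_eq_one (by rw [← hω]; exact hωN) (by omega)
  have h9 : (Finset.univ.image fun j : Fin N => τ (ω ^ (j : ℕ) * ζ)).card = N := by
    rw [Finset.card_image_of_injective, Finset.card_univ, Fintype.card_fin]
    intro j l hjl
    by_contra hne
    have h10 : (j : ℕ) ≠ l := fun h11 => hne (Fin.ext h11)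
    have h12 := hτd ζ (norm_pos_iff.2 h7) h6 j j.2 l l.2 h10
    rw [← hω] at h12
    exact h12 hjl
  have h10 : ((Finset.univ.image fun j : Fin N => τ (ω ^ (j : ℕ) * ζ) : Finset ℂ) : Set ℂ) ⊆ rts a (ζ ^ N • v) := by
    intro t ht
    rw [Finset.coe_image] at ht
    obtain ⟨j, -, rfl⟩ := ht
    have h11 : ‖ω ^ (j : ℕ) * ζ‖ = ‖ζ‖ := by rw [norm_mul, norm_pow, hω1, one_pow, one_mul]
    have h12 := hτr (ω ^ (j : ℕ) * ζ) (by rw [h11]; exact norm_pos_iff.2 h7) (by rw [h11]; exact h6)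
    have h13 : (ω ^ (j : ℕ) * ζ) ^ N = ζ ^ N := by
      rw [mul_pow, ← pow_mul, mul_comm (j : ℕ) N, pow_mul, hωN, one_pow, one_mul]
    rwa [h13] at h12
  have h11 := Set.ncard_le_ncard h10 (rts_fin a _)
  rw [Set.ncard_coe_finset, h9] at h11
  omega

theorem B7_mult {f : E → ℂ} (hf : AnalyticAt ℂ f 0) {k : ℕ} {P : E → ℂ} (h : Zr.Lead f k P) : Zr.Mult f k := by
  refine ⟨(Zr.lead_order hf h k).2 le_rfl, fun h3 => ?_⟩
  have h4 : k + 1 ≤ k := (Zr.lead_order hf h (k + 1)).1 fun i hi => by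
    rcases Nat.lt_succ_iff_lt_or_eq.1 hi with h5 | h5
    · exact (Zr.lead_order hf h k).2 le_rfl i h5
    · rw [h5]
      exact h3
  omega

theorem mult_eq (hN : 2 ≤ N) {f : E → ℂ} (hf : Zr.RedGerm f) (hD : FoldDisc a f) : Zr.Mult f (N - 1) := by
  obtain ⟨k, P, hP⟩ := Zr.exists_lead hf.1 (B7_ne (by omega) hD)
  have hk := B7_mult hf.1 hP
  have h1 := mult_le (by omega) hf hD hk
  have h2 := ZrL.result_lower hf hk (has_sys (by omega) hf.1 hD)
  rw [finrank_quo (by omega), one_mul] at h2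
  have h3 : k = N - 1 := by omega
  rwa [h3] at hk

theorem disc_pair (hN : 2 ≤ N) {f g : E → ℂ} (hf : Zr.RedGerm f) (hD : FoldDisc a f) (hg : Zr.RedGerm g) {φ ψ : E → E}
    {V W : Set E} (h : Zr.Equ f g φ ψ V W) {m : ℕ} (hm : Zr.Mult g m) : N - 1 ≤ m := by
  have h1 : ZrL.HasSys ℂ (Quo N) {x | g x = 0} 1 :=
    (has_sys (by omega) hf.1 hD).transfer h.hV h.hW h.mφ h.mψ h.li h.ri h.cφ h.cψ h.z0 (fun z hz => h.zs z hz)
  have h2 := ZrL.result_lower hg hm h1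
  rw [finrank_quo (by omega), one_mul] at h2
  exact h2

end ZrD
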