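import Pool.Agent.helper60.ZrD.B7

set_option autoImplicit false

/-!
# ZrD, module B8: families near a discriminant (written by helper60)
-/

noncomputable section

namespace ZrD

open Filter Topology Set

variable {E : Type*} [NormedAddCommGroup E] [NormedSpace ℂ E] [FiniteDimensional ℂ E] {N : ℕ} {a : Fin N → E → ℂ}

theorem sys_equ {K M : Type*} [Field K] [AddCommGroup M] [Module K M] [FiniteDimensional K M] {f g : E → ℂ} {φ ψ : E → E}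
    {V W : Set E} (h : Zr.Equ f g φ ψ V W) {e : ℕ} (hs : ZrL.HasSys K M {x | f x = 0} e) :
    ZrL.HasSys K M {x | g x = 0} e :=
  hs.transfer h.hV h.hW h.mφ h.mψ h.li h.ri h.cφ h.cψ h.z0 h.zs

theorem disc_near (hN : 2 ≤ N) {F : ℝ → E → ℂ} {U : Set E} (hU : IsOpen U) (h0 : (0 : E) ∈ U)
    (hF : ContinuousOn (fun p : ℝ × E => F p.1 p.2) (Icc (0:ℝ) 1 ×ˢ U))
    (ha : ∀ t ∈ Icc (0:ℝ) 1, AnalyticOnNhd ℂ (F t) U) (hr : ∀ t ∈ Icc (0:ℝ) 1, Zr.RedGerm (F t))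
    (htop : ∀ t ∈ Icc (0:ℝ) 1, ∃ (φ ψ : E → E) (V W : Set E), Zr.Equ (F 0) (F t) φ ψ V W) {s : ℝ}
    (hs : s ∈ Icc (0:ℝ) 1) (hD : FoldDisc a (F s)) :
    ∃ η : ℝ, 0 < η ∧ ∀ t ∈ Icc (0:ℝ) 1, |t - s| < η → Zr.Mult (F t) (N - 1) := by
  have h1 := has_sys (by omega) (hr s hs).1 hD
  obtain ⟨φ, ψ, V, W, hE⟩ := htop s hs
  have h2 := sys_equ hE.symm h1
  have h3 := mult_eq hN (hr s hs) hD
  exact ZrL.result_near hU h0 hF ha hr htop hs h3 h2 (by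
    rw [finrank_quo (by omega)]
    omega)

end ZrD
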