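import Pool.Agent.helper60.ZrL.Sys

set_option autoImplicit false

/-!
# ZrD (MP_8ee7fe_ag): discriminants, definitions
-/

noncomputable section

namespace ZrD

open Filter Topology Set

variable {E : Type*} [NormedAddCommGroup E] [NormedSpace ℂ E]

/-- the monic polynomial of degree `N` with the coefficients `a i x` at the point `x` -/
def pev {N : ℕ} (a : Fin N → E → ℂ) (x : E) (t : ℂ) : ℂ := t ^ N + ∑ i : Fin N, a i x * t ^ (i : ℕ)

/-- the set of its roots -/
def rts {N : ℕ} (a : Fin N → E → ℂ) (x : E) : Set ℂ := {t | pev a x t = 0}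

/-- the zeros of `f` are the discriminant of `t ^ N + ∑ a i x * t ^ i`, which is an Eisenstein polynomial at `0` and has exactly one double root (and no
other multiple roots) at a dense set of points of its discriminant -/
structure FoldDisc {N : ℕ} (a : Fin N → E → ℂ) (f : E → ℂ) : Prop where
  an : ∀ i, AnalyticAt ℂ (a i) 0
  zero : ∀ i, a i 0 = 0
  first : ∀ i : Fin N, (i : ℕ) = 0 → fderiv ℂ (a i) 0 ≠ 0
  locus : ∀ᶠ x in 𝓝 (0 : E), (f x = 0 ↔ (rts a x).ncard < N)
  fold : ∀ᶠ x in 𝓝 (0 : E), f x = 0 → x ∈ closure {q | f q = 0 ∧ (rts a q).ncard + 1 = N}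

/-- the points near which the coefficients are continuous and where there are `N` different roots -/
def Good {N : ℕ} (a : Fin N → E → ℂ) : Set E := {x | (∀ i, ∀ᶠ y in 𝓝 x, ContinuousAt (a i) y) ∧ (rts a x).ncard = N}

/-- functions on `Fin N` modulo constants -/
abbrev Quo (N : ℕ) : Type := (Fin N → ℂ) ⧸ (Submodule.span ℂ {(fun _ => 1 : Fin N → ℂ)})

/-- the action of a permutation -/
def act {N : ℕ} (σ : Equiv.Perm (Fin N)) : Quo N ≃ₗ[ℂ] Quo N :=
  Submodule.Quotient.equiv _ _ (LinearEquiv.funCongrLeft ℂ ℂ σ.symm) (by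
    rw [Submodule.map_span, image_singleton]
    rfl)

theorem act_mk {N : ℕ} (σ : Equiv.Perm (Fin N)) (u : Fin N → ℂ) :
    act σ (Submodule.Quotient.mk u) = Submodule.Quotient.mk (fun i => u (σ.symm i)) := rfl

/-- enumerations `β x` of the roots and matchings `mt x y` of the roots of nearby points -/
structure Match {N : ℕ} (a : Fin N → E → ℂ) (β : E → Fin N → ℂ) (mt : E → E → Equiv.Perm (Fin N)) : Prop where
  inj : ∀ x ∈ Good a, Function.Injective (β x)
  root : ∀ x ∈ Good a, ∀ t, t ∈ rts a x ↔ ∃ i, β x i = t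
  near : ∀ x ∈ Good a, ∀ ε : ℝ, 0 < ε → ∀ᶠ y in 𝓝[Good a] x, ∀ i, ‖β y (mt x y i) - β x i‖ < ε

end ZrD
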